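import Mathlib

/-! F_5-flows: perfect matchings whose intersection contains no odd cut (helper432). Definitions and basic facts. -/

namespace Helper432.F5

open Finset

/-- A finite multigraph whose vertices and edges live in ambient types. -/
structure Gr (α β : Type) where
  V : Finset α
  E : Finset β
  h : β → α
  t : β → α

variable {α β : Type} [DecidableEq α] [DecidableEq β]

/-- number of edges of `A` incident with `v` (for loopless graphs) -/
def Gr.deg (G : Gr α β) (A : Finset β) (v : α) : ℕ :=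
  (A.filter (fun e => G.h e = v ∨ G.t e = v)).card

/-- edge cut of `X` -/
def Gr.cut (G : Gr α β) (X : Finset α) : Finset β :=
  G.E.filter (fun e => (G.h e ∈ X ∧ G.t e ∉ X) ∨ (G.h e ∉ X ∧ G.t e ∈ X))

/-- edges of `A` with both ends in `X` -/
def Gr.inn (G : Gr α β) (A : Finset β) (X : Finset α) : Finset β :=
  A.filter (fun e => G.h e ∈ X ∧ G.t e ∈ X)

/-- loopless bridgeless cubic graph -/
structure Gr.Ok (G : Gr α β) : Prop where
  hV : ∀ e ∈ G.E, G.h e ∈ G.V
  tV : ∀ e ∈ G.E, G.t e ∈ G.V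
  ne : ∀ e ∈ G.E, G.h e ≠ G.t e
  cub : ∀ v ∈ G.V, G.deg G.E v = 3
  br : ∀ X ⊆ G.V, (G.cut X).card ≠ 1

/-- `F` is a V-join -/
def Gr.Join (G : Gr α β) (F : Finset β) : Prop := F ⊆ G.E ∧ ∀ v ∈ G.V, Odd (G.deg F v)

/-- `M` is a perfect matching -/
def Gr.PM (G : Gr α β) (M : Finset β) : Prop := M ⊆ G.E ∧ ∀ v ∈ G.V, G.deg M v = 1

/-- `P` meets every odd vertex set which is closed under the edges outside `F` -/
def Gr.Cert (G : Gr α β) (F : Finset β) (P : Finset α) : Prop :=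
  ∀ X ⊆ G.V, (∀ e ∈ G.E, e ∉ F → (G.h e ∈ X ↔ G.t e ∈ X)) → Disjoint X P → Even X.card

/-- no odd cut is contained in `F ∩ M` -/
def Gr.Good (G : Gr α β) (F M : Finset β) : Prop :=
  ∀ X ⊆ G.V, G.cut X ⊆ F ∩ M → Even X.card

def Gr.Sol (G : Gr α β) (F : Finset β) (e : β) : Prop := ∃ M, G.PM M ∧ e ∈ M ∧ G.Good F M

/-- contraction of the complement of `X` to the vertex `w` (which should not be in `X`) -/
def Gr.con (G : Gr α β) (X : Finset α) (w : α) : Gr α β where
  V := insert w X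
  E := G.E.filter (fun e => G.h e ∈ X ∨ G.t e ∈ X)
  h := fun e => if G.h e ∈ X then G.h e else w
  t := fun e => if G.t e ∈ X then G.t e else w

/-- `e` joins `u` and `v` -/
def Gr.J (G : Gr α β) (e : β) (u v : α) : Prop :=
  (G.h e = u ∧ G.t e = v) ∨ (G.h e = v ∧ G.t e = u)

/-- handshake identity -/
theorem Gr.handshake (G : Gr α β) (hG : ∀ e ∈ G.E, G.h e ≠ G.t e) (A : Finset β) (hA : A ⊆ G.E)
    (X : Finset α) :
    ∑ v ∈ X, G.deg A v = (A ∩ G.cut X).card + 2 * (G.inn A X).card := by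
  classical
  unfold Gr.deg
  simp_rw [Finset.card_filter]
  rw [Finset.sum_comm]
  have e1 : ∀ e ∈ A, (∑ v ∈ X, if G.h e = v ∨ G.t e = v then 1 else 0)
      = (if e ∈ G.cut X then 1 else 0) + 2 * (if G.h e ∈ X ∧ G.t e ∈ X then 1 else 0) := by
    intro e he
    have hne := hG e (hA he)
    have hs : (∑ v ∈ X, if G.h e = v ∨ G.t e = v then 1 else 0)
        = (∑ v ∈ X, if G.h e = v then 1 else 0) + (∑ v ∈ X, if G.t e = v then 1 else 0) := by
      rw [← Finset.sum_add_distrib]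
      apply Finset.sum_congr rfl
      intro v _
      by_cases h1 : G.h e = v
      · have h2 : G.t e ≠ v := fun h2 => hne (h1.trans h2.symm)
        simp [h1, h2]
      · by_cases h2 : G.t e = v
        · simp [h1, h2]
        · simp [h1, h2]
    rw [hs, Finset.sum_ite_eq, Finset.sum_ite_eq]
    have hc : e ∈ G.cut X ↔ ((G.h e ∈ X ∧ G.t e ∉ X) ∨ (G.h e ∉ X ∧ G.t e ∈ X)) := by
      unfold Gr.cut
      simp [hA he]
    by_cases h1 : G.h e ∈ X <;> by_cases h2 : G.t e ∈ X <;> simp [hc, h1, h2]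
  rw [Finset.sum_congr rfl e1, Finset.sum_add_distrib, ← Finset.mul_sum]
  congr 1
  · rw [← Finset.card_filter, Finset.filter_mem_eq_inter]
  · rw [← Finset.card_filter]; rfl

/-- parity of cuts -/
theorem Gr.par (G : Gr α β) (hG : ∀ e ∈ G.E, G.h e ≠ G.t e) (A : Finset β) (hA : A ⊆ G.E)
    (hodd : ∀ v ∈ G.V, Odd (G.deg A v)) (X : Finset α) (hX : X ⊆ G.V) :
    (A ∩ G.cut X).card % 2 = X.card % 2 := by
  have h := G.handshake hG A hA X
  have h2 : (∑ v ∈ X, G.deg A v) % 2 = X.card % 2 := by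
    rw [Finset.sum_nat_mod]
    have : ∀ v ∈ X, G.deg A v % 2 = 1 := fun v hv => Nat.odd_iff.mp (hodd v (hX hv))
    rw [Finset.sum_congr rfl this]
    simp
  omega

/-- the number of edges of a cut -/
theorem Gr.card_cut (G : Gr α β) (hG : G.Ok) (X : Finset α) (hX : X ⊆ G.V) :
    (G.cut X).card + 2 * (G.inn G.E X).card = 3 * X.card := by
  have h := G.handshake hG.ne G.E (Finset.Subset.refl _) X
  have h2 : ∑ v ∈ X, G.deg G.E v = 3 * X.card := by
    rw [Finset.sum_congr rfl (fun v hv => hG.cub v (hX hv))]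
    simp [mul_comm]
  have h3 : G.E ∩ G.cut X = G.cut X := by
    apply Finset.inter_eq_right.mpr
    unfold Gr.cut
    exact Finset.filter_subset _ _
  rw [h3] at h
  omega

/-- a cut and its complement -/
theorem Gr.cut_compl (G : Gr α β) (hG : G.Ok) (X : Finset α) :
    G.cut (G.V \ X) = G.cut X := by
  unfold Gr.cut
  apply Finset.filter_congr
  intro e he
  have h1 := hG.hV e he
  have h2 := hG.tV e he
  simp only [Finset.mem_sdiff, h1, h2, true_and, not_not]
  tauto

theorem Gr.PM.join {G : Gr α β} {M : Finset β} (hM : G.PM M) : G.Join M :=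
  ⟨hM.1, fun v hv => by rw [hM.2 v hv]; exact odd_one⟩

theorem Gr.Ok.joinE {G : Gr α β} (hG : G.Ok) : G.Join G.E :=
  ⟨Finset.Subset.refl _, fun v hv => by rw [hG.cub v hv]; decide⟩

theorem Gr.even_V (G : Gr α β) (hG : G.Ok) : Even G.V.card := by
  have h := G.card_cut hG G.V (Finset.Subset.refl _)
  have h0 : G.cut G.V = ∅ := by
    unfold Gr.cut
    apply Finset.filter_eq_empty_iff.mpr
    intro e he
    simp [hG.hV e he, hG.tV e he]
  rw [h0] at h
  simp only [Finset.card_empty, zero_add] at h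
  rw [Nat.even_iff]
  omega

/-- everything about the place where the reduction is made -/
structure Gr.Red (G : Gr α β) (F : Finset β) (a x y b x' b' : α) (ea em ex eb eb' : β) : Prop where
  Ja : G.J ea a x
  Jm : G.J em x y
  Jx : G.J ex x x'
  Jb : G.J eb y b
  Jb' : G.J eb' y b'
  va : a ∈ G.V
  vx : x ∈ G.V
  vy : y ∈ G.V
  vb : b ∈ G.V
  vx' : x' ∈ G.V
  vb' : b' ∈ G.V
  Ea : ea ∈ G.E
  Em : em ∈ G.E
  Ex : ex ∈ G.E
  Eb : eb ∈ G.E
  Eb' : eb' ∈ G.E
  vnd : [a, x, y, b, x', b'].Nodup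
  end_ : [ea, em, ex, eb, eb'].Nodup
  incx : ∀ e ∈ G.E, (G.h e = x ∨ G.t e = x) → e = ea ∨ e = em ∨ e = ex
  incy : ∀ e ∈ G.E, (G.h e = y ∨ G.t e = y) → e = em ∨ e = eb ∨ e = eb'
  mF : em ∉ F
  abF : ea ∈ F ↔ eb ∈ F
  xbF : ex ∈ F ↔ eb' ∈ F
  one : ea ∈ F ↔ ex ∉ F

/-- the reduced graph `G - x - y + ab + x'b'`: the edge `ea` becomes `ab`, the edge `ex` becomes `x'b'` -/
def Gr.red (G : Gr α β) (a x y b x' b' : α) (ea em ex eb eb' : β) : Gr α β where
  V := G.V \ {x, y}
  E := G.E \ {em, eb, eb'}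
  h := Function.update (Function.update G.h ea a) ex x'
  t := Function.update (Function.update G.t ea b) ex b'

end Helper432.F5
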