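import Pool.Agent.H432R2.F5.Defs

namespace Helper432.F5

open Finset

variable {α β : Type} [DecidableEq α] [DecidableEq β]

theorem BAS_single (G : Gr α β) (e : β) (v : α) :
    G.deg {e} v = if G.h e = v ∨ G.t e = v then 1 else 0 := by
  unfold Gr.deg
  rw [Finset.card_filter, Finset.sum_singleton]

theorem BAS_pair (G : Gr α β) (e g : β) (hne : e ≠ g) (v : α) :
    G.deg {e, g} v = (if G.h e = v ∨ G.t e = v then 1 else 0) +
      (if G.h g = v ∨ G.t g = v then 1 else 0) := by
  unfold Gr.deg
  rw [Finset.card_filter, Finset.sum_pair hne]

theorem base_pm (G : Gr α β) (hG : G.Ok) (h4 : G.V.card ≤ 4) (e : β) (he : e ∈ G.E) :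
    ∃ M, G.PM M ∧ e ∈ M := by
  have hh := hG.hV e he
  have ht := hG.tV e he
  have hne := hG.ne e he
  have hev := G.even_V hG
  have hAV : ({G.h e, G.t e} : Finset α) ⊆ G.V := by
    intro v hv
    rw [Finset.mem_insert, Finset.mem_singleton] at hv
    rcases hv with h | h
    · rw [h]; exact hh
    · rw [h]; exact ht
  have hA2 : ({G.h e, G.t e} : Finset α).card = 2 := Finset.card_pair hne
  have hle := Finset.card_le_card hAV
  have hXc : (G.V \ {G.h e, G.t e}).card = G.V.card - 2 := by
    rw [Finset.card_sdiff_of_subset hAV, hA2]
  rw [hA2] at hle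
  obtain ⟨k, hk⟩ := hev
  have hcases : G.V.card = 2 ∨ G.V.card = 4 := by omega
  rcases hcases with hV | hV
  · refine ⟨{e}, ⟨Finset.singleton_subset_iff.mpr he, fun v hv => ?_⟩,
      Finset.mem_singleton_self e⟩
    have hVA : G.V = {G.h e, G.t e} :=
      (Finset.eq_of_subset_of_card_le hAV (by rw [hA2, hV])).symm
    rw [hVA, Finset.mem_insert, Finset.mem_singleton] at hv
    rw [BAS_single, if_pos]
    rcases hv with h | h
    · exact Or.inl h.symm
    · exact Or.inr h.symm
  · have hX2 : (G.V \ {G.h e, G.t e}).card = 2 := by omega
    have hXV : G.V \ {G.h e, G.t e} ⊆ G.V := Finset.sdiff_subset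
    by_cases hg : (G.inn G.E (G.V \ {G.h e, G.t e})).Nonempty
    · obtain ⟨g, hg⟩ := hg
      unfold Gr.inn at hg
      rw [Finset.mem_filter] at hg
      obtain ⟨hgE, hgh, hgt⟩ := hg
      have hgne := hG.ne g hgE
      have hP : ({G.h g, G.t g} : Finset α) = G.V \ {G.h e, G.t e} := by
        apply Finset.eq_of_subset_of_card_le
        · intro v hv
          rw [Finset.mem_insert, Finset.mem_singleton] at hv
          rcases hv with h | h
          · rw [h]; exact hgh
          · rw [h]; exact hgt
        · rw [hX2, Finset.card_pair hgne]
      have hgh' := (Finset.mem_sdiff.mp hgh).2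
      have hgt' := (Finset.mem_sdiff.mp hgt).2
      rw [Finset.mem_insert, Finset.mem_singleton, not_or] at hgh' hgt'
      have heg : e ≠ g := by
        intro h
        apply hgh'.1
        rw [h]
      refine ⟨{e, g}, ⟨?_, fun v hv => ?_⟩, Finset.mem_insert_self _ _⟩
      · intro x hx
        rw [Finset.mem_insert, Finset.mem_singleton] at hx
        rcases hx with h | h
        · rw [h]; exact he
        · rw [h]; exact hgE
      · rw [BAS_pair G e g heg]
        by_cases hvA : v ∈ ({G.h e, G.t e} : Finset α)
        · rw [Finset.mem_insert, Finset.mem_singleton] at hvA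
          rw [if_pos, if_neg]
          · rintro (h | h)
            · rcases hvA with h2 | h2
              · exact hgh'.1 (h.trans h2)
              · exact hgh'.2 (h.trans h2)
            · rcases hvA with h2 | h2
              · exact hgt'.1 (h.trans h2)
              · exact hgt'.2 (h.trans h2)
          · rcases hvA with h | h
            · exact Or.inl h.symm
            · exact Or.inr h.symm
        · have hvX : v ∈ ({G.h g, G.t g} : Finset α) := by
            rw [hP]
            exact Finset.mem_sdiff.mpr ⟨hv, hvA⟩
          rw [Finset.mem_insert, Finset.mem_singleton] at hvX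
          rw [Finset.mem_insert, Finset.mem_singleton, not_or] at hvA
          rw [if_neg, if_pos]
          · rcases hvX with h | h
            · exact Or.inl h.symm
            · exact Or.inr h.symm
          · rintro (h | h)
            · exact hvA.1 h.symm
            · exact hvA.2 h.symm
    · exfalso
      rw [Finset.not_nonempty_iff_eq_empty] at hg
      have h1 := G.card_cut hG _ hXV
      rw [hg, hX2, Finset.card_empty, G.cut_compl hG] at h1
      have h2 := G.card_cut hG _ hAV
      rw [hA2] at h2
      have h3 : 0 < (G.inn G.E {G.h e, G.t e}).card := by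
        apply Finset.card_pos.mpr
        refine ⟨e, ?_⟩
        unfold Gr.inn
        rw [Finset.mem_filter]
        simp [he]
      omega

end Helper432.F5
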