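import Pool.Agent.H432R2.F5.Defs

namespace Helper432.F5

open Finset

variable {α β : Type} [DecidableEq α] [DecidableEq β]

theorem BSG_card (G : Gr α β) (hG : G.Ok) (M : Finset β) (hM : G.PM M) :
    M.card * 2 = G.V.card := by
  have h := G.handshake hG.ne M hM.1 G.V
  have h2 : ∑ v ∈ G.V, G.deg M v = G.V.card := by
    rw [Finset.sum_congr rfl (fun v hv => hM.2 v hv)]
    simp
  have h0 : G.cut G.V = ∅ := by
    unfold Gr.cut
    apply Finset.filter_eq_empty_iff.mpr
    intro e he
    simp [hG.hV e he, hG.tV e he]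
  have h3 : G.inn M G.V = M := by
    unfold Gr.inn
    apply Finset.filter_true_of_mem
    intro e he
    exact ⟨hG.hV e (hM.1 he), hG.tV e (hM.1 he)⟩
  rw [h2, h0, h3, Finset.inter_empty, Finset.card_empty] at h
  omega

theorem base_good (G : Gr α β) (hG : G.Ok) (h4 : G.V.card ≤ 4) (F M : Finset β) (hM : G.PM M) :
    G.Good F M := by
  intro X hX hcut
  by_contra hodd
  have h1 := BSG_card G hG M hM
  have h2 := G.card_cut hG X hX
  have h3 := hG.br X hX
  have h4' : (G.cut X).card ≤ M.card :=
    Finset.card_le_card (hcut.trans Finset.inter_subset_right)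
  rw [Nat.not_even_iff] at hodd
  omega

end Helper432.F5
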