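import Pool.Agent.H432R2.F5.Defs

namespace Helper432.F5

open Finset

variable {α β : Type} [DecidableEq α] [DecidableEq β]

theorem con_cert (G : Gr α β) (hG : G.Ok) (X : Finset α) (hX : X ⊆ G.V) (h3 : (G.cut X).card = 3)
    (w : α) (hw : w ∈ G.V) (hwX : w ∉ X) (F : Finset β) (P : Finset α) (hPV : P ⊆ G.V)
    (hP : G.Cert F P) :
    ∃ P' ⊆ (G.con X w).V, P'.card ≤ P.card ∧
      (G.con X w).Cert (F ∩ (G.con X w).E) P' := by
  classical
  have hsplit : (P \ X).card + (P ∩ X).card = P.card := Finset.card_sdiff_add_card_inter P X
  have hmain : ∀ P' : Finset α, P ∩ X ⊆ P' → ((P \ X).Nonempty → w ∈ P') →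
      (G.con X w).Cert (F ∩ (G.con X w).E) P' := by
    intro P' hsub hwP Z hZ hcl hdis
    have hcl' : ∀ e ∈ G.E, (G.h e ∈ X ∨ G.t e ∈ X) → e ∉ F →
        ((if G.h e ∈ X then G.h e else w) ∈ Z ↔ (if G.t e ∈ X then G.t e else w) ∈ Z) := by
      intro e he hor hF
      exact hcl e (Finset.mem_filter.mpr ⟨he, hor⟩) (fun h => hF (Finset.mem_inter.mp h).1)
    by_cases hwZ : w ∈ Z
    · have hPX : P ⊆ X := by
        by_contra hcon
        have hne : (P \ X).Nonempty := by
          rw [Finset.nonempty_iff_ne_empty]
          intro h
          exact hcon (Finset.sdiff_eq_empty_iff_subset.mp h)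
        exact (Finset.disjoint_left.mp hdis hwZ) (hwP hne)
      set Z' := Z.erase w ∪ (G.V \ X) with hZ'
      have hZX : Z.erase w ⊆ X := by
        intro z hz
        obtain ⟨h1, h2⟩ := Finset.mem_erase.mp hz
        rcases Finset.mem_insert.mp (hZ h2) with h | h
        · exact absurd h h1
        · exact h
      have hZ'V : Z' ⊆ G.V := Finset.union_subset (hZX.trans hX) Finset.sdiff_subset
      have hmem : ∀ z, z ∈ G.V → ((if z ∈ X then z else w) ∈ Z ↔ z ∈ Z') := by
        intro z hz
        rw [hZ']
        split_ifs with h
        · have hzw : z ≠ w := fun h' => hwX (h' ▸ h)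
          simp [h, hzw]
        · simp [h, hz, hwZ]
      have hev : Even Z'.card := by
        apply hP Z' hZ'V
        · intro e he hF
          by_cases hor : G.h e ∈ X ∨ G.t e ∈ X
          · rw [← hmem _ (hG.hV e he), ← hmem _ (hG.tV e he)]
            exact hcl' e he hor hF
          · push Not at hor
            rw [← hmem _ (hG.hV e he), ← hmem _ (hG.tV e he), if_neg hor.1, if_neg hor.2]
        · rw [Finset.disjoint_left]
          intro z hz hzP
          rcases Finset.mem_union.mp hz with h | h
          · have h2 := (Finset.mem_erase.mp h).2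
            exact (Finset.disjoint_left.mp hdis h2) (hsub (Finset.mem_inter.mpr ⟨hzP, hPX hzP⟩))
          · exact (Finset.mem_sdiff.mp h).2 (hPX hzP)
      have hc : Z'.card = (Z.erase w).card + (G.V \ X).card := by
        rw [hZ']
        apply Finset.card_union_of_disjoint
        rw [Finset.disjoint_left]
        intro z hz hz2
        exact (Finset.mem_sdiff.mp hz2).2 (hZX hz)
      have hc2 : (Z.erase w).card + 1 = Z.card := Finset.card_erase_add_one hwZ
      have hc3 : (G.V \ X).card + X.card = G.V.card := Finset.card_sdiff_add_card_eq_card hX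
      have hv := G.even_V hG
      have hcut := G.card_cut hG X hX
      rw [Nat.even_iff] at *
      omega
    · have hZX : Z ⊆ X := by
        intro z hz
        rcases Finset.mem_insert.mp (hZ hz) with h | h
        · exact absurd (h ▸ hz) hwZ
        · exact h
      have hmem : ∀ z, ((if z ∈ X then z else w) ∈ Z ↔ z ∈ Z) := by
        intro z
        split_ifs with h
        · exact Iff.rfl
        · constructor
          · intro h'; exact absurd h' hwZ
          · intro h'; exact absurd (hZX h') h
      apply hP Z (hZX.trans hX)
      · intro e he hF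
        by_cases hor : G.h e ∈ X ∨ G.t e ∈ X
        · rw [← hmem (G.h e), ← hmem (G.t e)]
          exact hcl' e he hor hF
        · push Not at hor
          constructor
          · intro h; exact absurd (hZX h) hor.1
          · intro h; exact absurd (hZX h) hor.2
      · rw [Finset.disjoint_left]
        intro z hz hzP
        exact (Finset.disjoint_left.mp hdis hz) (hsub (Finset.mem_inter.mpr ⟨hzP, hZX hz⟩))
  by_cases hne : (P \ X).Nonempty
  · refine ⟨insert w (P ∩ X), ?_, ?_, hmain _ (Finset.subset_insert _ _)
      (fun _ => Finset.mem_insert_self _ _)⟩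
    · exact Finset.insert_subset_insert _ Finset.inter_subset_right
    · have h1 : 0 < (P \ X).card := Finset.card_pos.mpr hne
      have h2 := Finset.card_insert_le w (P ∩ X)
      omega
  · refine ⟨P ∩ X, ?_, by omega, hmain _ (Finset.Subset.refl _) (fun h => absurd h hne)⟩
    exact Finset.inter_subset_right.trans (Finset.subset_insert _ _)

end Helper432.F5
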