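import Pool.Agent.H432R2.F5.Defs

namespace Helper432.F5

open Finset

variable {α β : Type} [DecidableEq α] [DecidableEq β]

theorem CF4_erase (G : Gr α β) (hG : G.Ok) (X : Finset α) (p : α) (hpX : p ∈ X) (hpV : p ∈ G.V) :
    (G.cut (X.erase p)).card + 2 * (G.E.filter (fun e => e ∈ G.cut X ∧ (G.h e = p ∨ G.t e = p))).card
      = (G.cut X).card + 3 := by
  have h3 : (G.E.filter (fun e => G.h e = p ∨ G.t e = p)).card = 3 := hG.cub p hpV
  rw [← h3]
  have hc1 : (G.cut (X.erase p)).card = ∑ e ∈ G.E, (if (G.h e ∈ X.erase p ∧ G.t e ∉ X.erase p) ∨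
      (G.h e ∉ X.erase p ∧ G.t e ∈ X.erase p) then 1 else 0) := by
    unfold Gr.cut
    rw [Finset.card_filter]
  have hc2 : (G.cut X).card = ∑ e ∈ G.E, (if (G.h e ∈ X ∧ G.t e ∉ X) ∨
      (G.h e ∉ X ∧ G.t e ∈ X) then 1 else 0) := by
    unfold Gr.cut
    rw [Finset.card_filter]
  rw [hc1, hc2, Finset.card_filter, Finset.card_filter, Finset.mul_sum, ← Finset.sum_add_distrib,
    ← Finset.sum_add_distrib]
  apply Finset.sum_congr rfl
  intro e he
  have hne := hG.ne e he
  have hc : e ∈ G.cut X ↔ ((G.h e ∈ X ∧ G.t e ∉ X) ∨ (G.h e ∉ X ∧ G.t e ∈ X)) := by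
    unfold Gr.cut
    simp [he]
  simp only [hc, Finset.mem_erase]
  by_cases h1 : G.h e = p
  · have h2 : G.t e ≠ p := fun h2 => hne (h1.trans h2.symm)
    by_cases h4 : G.t e ∈ X <;> simp [h1, h2, h4, hpX]
  · by_cases h2 : G.t e = p
    · by_cases h4 : G.h e ∈ X <;> simp [h1, h2, h4, hpX]
    · by_cases h4 : G.h e ∈ X <;> by_cases h5 : G.t e ∈ X <;> simp [h1, h2, h4, h5]

theorem CF4_key (G : Gr α β) (hG : G.Ok)
    (nt : ∀ X ⊆ G.V, 2 ≤ X.card → 2 ≤ (G.V \ X).card → (G.cut X).card ≠ 3)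
    (X : Finset α) (hX : X ⊆ G.V) (h4 : 4 ≤ X.card) (h2 : 2 ≤ (G.V \ X).card)
    (hlt : (G.cut X).card < 4) : False := by
  have hb := hG.br X hX
  have hn := nt X hX (by omega) h2
  have hsub : ∀ p, (G.E.filter (fun e => e ∈ G.cut X ∧ (G.h e = p ∨ G.t e = p))).card
      ≤ (G.cut X).card := by
    intro p
    apply Finset.card_le_card
    intro e he
    rw [Finset.mem_filter] at he
    exact he.2.1
  have hfin : ∀ p ∈ X, ((G.cut X).card = 2 →
      1 ≤ (G.E.filter (fun e => e ∈ G.cut X ∧ (G.h e = p ∨ G.t e = p))).card) → False := by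
    intro p hp hd
    have hk := CF4_erase G hG X p hp (hX hp)
    have hs := hsub p
    have hX' : X.erase p ⊆ G.V := (Finset.erase_subset _ _).trans hX
    have hb' := hG.br (X.erase p) hX'
    have hcard : (X.erase p).card = X.card - 1 := Finset.card_erase_of_mem hp
    have hmono : (G.V \ X).card ≤ (G.V \ X.erase p).card :=
      Finset.card_le_card (Finset.sdiff_subset_sdiff (Finset.Subset.refl _) (Finset.erase_subset _ _))
    have hn' := nt (X.erase p) hX' (by omega) (by omega)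
    have hd' : (G.cut X).card = 0 ∨ (G.cut X).card = 2 := by omega
    rcases hd' with h0 | h0
    · omega
    · have := hd h0
      omega
  by_cases h0 : (G.cut X).card = 2
  · have hne : (G.cut X).Nonempty := by
      rw [← Finset.card_pos]; omega
    obtain ⟨f, hf⟩ := hne
    have hf' := hf
    unfold Gr.cut at hf'
    rw [Finset.mem_filter] at hf'
    rcases hf'.2 with h | h
    · apply hfin (G.h f) h.1
      intro _
      apply Finset.card_pos.mpr
      exact ⟨f, by rw [Finset.mem_filter]; exact ⟨hf'.1, hf, Or.inl rfl⟩⟩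
    · apply hfin (G.t f) h.2
      intro _
      apply Finset.card_pos.mpr
      exact ⟨f, by rw [Finset.mem_filter]; exact ⟨hf'.1, hf, Or.inr rfl⟩⟩
  · have hne : X.Nonempty := by
      rw [← Finset.card_pos]; omega
    obtain ⟨p, hp⟩ := hne
    exact hfin p hp (fun h => absurd h h0)

theorem c4 (G : Gr α β) (hG : G.Ok) (h6 : 6 ≤ G.V.card)
    (nt : ∀ X ⊆ G.V, 2 ≤ X.card → 2 ≤ (G.V \ X).card → (G.cut X).card ≠ 3) :
    ∀ X ⊆ G.V, 2 ≤ X.card → 2 ≤ (G.V \ X).card → 4 ≤ (G.cut X).card := by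
  intro X hX h2 h2'
  by_contra hlt
  have hlt' : (G.cut X).card < 4 := by omega
  have hb := hG.br X hX
  have hn := nt X hX h2 h2'
  have hcc := G.card_cut hG X hX
  have hsum : (G.V \ X).card + X.card = G.V.card := Finset.card_sdiff_add_card_eq_card hX
  by_cases h4 : 4 ≤ X.card
  · exact CF4_key G hG nt X hX h4 h2' hlt'
  · have hss : G.V \ (G.V \ X) = X := by
      ext z
      simp only [Finset.mem_sdiff]
      constructor
      · rintro ⟨h1, h2⟩
        by_contra h3
        exact h2 ⟨h1, h3⟩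
      · intro h
        exact ⟨hX h, fun h' => h'.2 h⟩
    apply CF4_key G hG nt (G.V \ X) Finset.sdiff_subset (by omega) (by rw [hss]; exact h2)
    rw [G.cut_compl hG X]
    exact hlt'

end Helper432.F5
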