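import Pool.Agent.H432R2.F5.Defs

namespace Helper432.F5

open Finset

variable {α β : Type} [DecidableEq α] [DecidableEq β]

theorem cho_deg_le (G : Gr α β) (hG : G.Ok) (F : Finset β) (hF : G.Join F) (v : α) (hv : v ∈ G.V) :
    G.deg F v ≤ 3 := by
  rw [← hG.cub v hv]
  exact Finset.card_le_card (Finset.filter_subset_filter _ hF.1)

theorem cho_all (G : Gr α β) (hG : G.Ok) (F : Finset β) (hF : G.Join F) (v : α) (hv : v ∈ G.V)
    (h3 : G.deg F v = 3) (f : β) (hf : f ∈ G.E) (hi : G.h f = v ∨ G.t f = v) : f ∈ F := by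
  have hsub : F.filter (fun e => G.h e = v ∨ G.t e = v) ⊆ G.E.filter (fun e => G.h e = v ∨ G.t e = v) :=
    Finset.filter_subset_filter _ hF.1
  have heq := Finset.eq_of_subset_of_card_le hsub (by
    have h1 := hG.cub v hv
    unfold Gr.deg at h1 h3
    omega)
  have : f ∈ G.E.filter (fun e => G.h e = v ∨ G.t e = v) := Finset.mem_filter.2 ⟨hf, hi⟩
  rw [← heq] at this
  exact (Finset.mem_filter.1 this).1

theorem cho_memP (G : Gr α β) (F : Finset β) (P : Finset α) (hP : G.Cert F P) (v : α) (hv : v ∈ G.V)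
    (hall : ∀ f ∈ G.E, (G.h f = v ∨ G.t f = v) → f ∈ F) : v ∈ P := by
  by_contra hvP
  have h := hP {v} (Finset.singleton_subset_iff.2 hv) (fun f hf hfF => by
    have h1 : ¬ (G.h f = v ∨ G.t f = v) := fun h => hfF (hall f hf h)
    push Not at h1
    simp [h1.1, h1.2]) (Finset.disjoint_singleton_left.2 hvP)
  simp at h

theorem cho_three (G : Gr α β) (hG : G.Ok) (F : Finset β) (hF : G.Join F) (v : α) (hv : v ∈ G.V)
    (h1 : G.deg F v ≠ 1) : G.deg F v = 3 := by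
  have h2 := cho_deg_le G hG F hF v hv
  have h3 := Nat.odd_iff.1 (hF.2 v hv)
  omega

theorem cho_J (G : Gr α β) (hG : G.Ok) (f : β) (hf : f ∈ G.E) (a : α) (hi : G.h f = a ∨ G.t f = a) :
    ∃ x ∈ G.V, G.J f a x := by
  rcases hi with h | h
  · exact ⟨G.t f, hG.tV f hf, Or.inl ⟨h, rfl⟩⟩
  · exact ⟨G.h f, hG.hV f hf, Or.inr ⟨rfl, h⟩⟩

theorem cho_J_symm (G : Gr α β) {f : β} {a x : α} (h : G.J f a x) : G.J f x a := by
  rcases h with ⟨h1, h2⟩ | ⟨h1, h2⟩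
  · exact Or.inr ⟨h1, h2⟩
  · exact Or.inl ⟨h1, h2⟩

theorem cho_J_ne (G : Gr α β) (hG : G.Ok) {f : β} (hf : f ∈ G.E) {a x : α} (h : G.J f a x) : a ≠ x := by
  have hne := hG.ne f hf
  rcases h with ⟨h1, h2⟩ | ⟨h1, h2⟩
  · rw [← h1, ← h2]; exact hne
  · rw [← h1, ← h2]; exact hne.symm

theorem cho_J_inc (G : Gr α β) {f : β} {a x : α} (h : G.J f a x) : G.h f = a ∨ G.t f = a := by
  rcases h with ⟨h1, _⟩ | ⟨_, h2⟩
  · exact Or.inl h1
  · exact Or.inr h2

theorem cho_side (G : Gr α β) (hG : G.Ok) (F : Finset β) (hF : G.Join F) (P : Finset α)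
    (hP : G.Cert F P) (e : β) (he : e ∈ G.E) (a : α) (haV : a ∈ G.V) (hea : G.h e = a ∨ G.t e = a)
    (H : ∀ x ea, ea ∈ G.E → ea ≠ e → G.J ea a x → G.deg F x ≠ 1) :
    ∃ f g x y, f ∈ G.E ∧ g ∈ G.E ∧ f ≠ e ∧ g ≠ e ∧ f ≠ g ∧ G.J f a x ∧ G.J g a y ∧ x ∈ P ∧ y ∈ P ∧ a ∈ P := by
  have hmem : e ∈ G.E.filter (fun e => G.h e = a ∨ G.t e = a) := Finset.mem_filter.2 ⟨he, hea⟩
  have hcard : ((G.E.filter (fun e => G.h e = a ∨ G.t e = a)).erase e).card = 2 := by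
    rw [Finset.card_erase_of_mem hmem]
    have := hG.cub a haV
    unfold Gr.deg at this
    omega
  obtain ⟨f, g, hfg, hset⟩ := Finset.card_eq_two.1 hcard
  have hf : f ∈ (G.E.filter (fun e => G.h e = a ∨ G.t e = a)).erase e := by rw [hset]; simp
  have hg : g ∈ (G.E.filter (fun e => G.h e = a ∨ G.t e = a)).erase e := by rw [hset]; simp
  rw [Finset.mem_erase, Finset.mem_filter] at hf hg
  obtain ⟨hfe, hfE, hfi⟩ := hf
  obtain ⟨hge, hgE, hgi⟩ := hg
  obtain ⟨x, hx, hJx⟩ := cho_J G hG f hfE a hfi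
  obtain ⟨y, hy, hJy⟩ := cho_J G hG g hgE a hgi
  have hx3 := cho_three G hG F hF x hx (H x f hfE hfe hJx)
  have hy3 := cho_three G hG F hF y hy (H y g hgE hge hJy)
  have hxP : x ∈ P := cho_memP G F P hP x hx (cho_all G hG F hF x hx hx3)
  have hyP : y ∈ P := cho_memP G F P hP y hy (cho_all G hG F hF y hy hy3)
  have hfF : f ∈ F := cho_all G hG F hF x hx hx3 f hfE (cho_J_inc G (cho_J_symm G hJx))
  have hgF : g ∈ F := cho_all G hG F hF y hy hy3 g hgE (cho_J_inc G (cho_J_symm G hJy))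
  have ha1 : G.deg F a ≠ 1 := by
    intro h1
    have h2 : 1 < (F.filter (fun e => G.h e = a ∨ G.t e = a)).card :=
      Finset.one_lt_card.2 ⟨f, Finset.mem_filter.2 ⟨hfF, hfi⟩, g, Finset.mem_filter.2 ⟨hgF, hgi⟩, hfg⟩
    unfold Gr.deg at h1
    omega
  have ha3 := cho_three G hG F hF a haV ha1
  have haP : a ∈ P := cho_memP G F P hP a haV (cho_all G hG F hF a haV ha3)
  exact ⟨f, g, x, y, hfE, hgE, hfe, hge, hfg, hJx, hJy, hxP, hyP, haP⟩

theorem choice1 (G : Gr α β) (hG : G.Ok)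
    (dig : ∀ e ∈ G.E, ∀ f ∈ G.E, ∀ u v, G.J e u v → G.J f u v → e = f)
    (tri : ∀ e ∈ G.E, ∀ f ∈ G.E, ∀ g ∈ G.E, ∀ u v w, G.J e u v → G.J f v w → G.J g w u → False)
    (F : Finset β) (hF : G.Join F) (P : Finset α) (hPV : P ⊆ G.V) (hP5 : P.card ≤ 5)
    (hP : G.Cert F P) (e : β) (he : e ∈ G.E) :
    ∃ a x ea, (G.h e = a ∨ G.t e = a) ∧ ea ∈ G.E ∧ ea ≠ e ∧ G.J ea a x ∧ G.deg F x = 1 := by
  by_contra hcon
  push Not at hcon
  obtain ⟨f, g, x, y, hfE, hgE, hfe, hge, hfg, hJx, hJy, hxP, hyP, haP⟩ :=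
    cho_side G hG F hF P hP e he (G.h e) (hG.hV e he) (Or.inl rfl)
      (fun x ea h1 h2 h3 => hcon (G.h e) x ea (Or.inl rfl) h1 h2 h3)
  obtain ⟨f', g', x', y', hfE', hgE', hfe', hge', hfg', hJx', hJy', hxP', hyP', haP'⟩ :=
    cho_side G hG F hF P hP e he (G.t e) (hG.tV e he) (Or.inr rfl)
      (fun x ea h1 h2 h3 => hcon (G.t e) x ea (Or.inr rfl) h1 h2 h3)
  have hJe : G.J e (G.h e) (G.t e) := Or.inl ⟨rfl, rfl⟩
  have hJe' : G.J e (G.t e) (G.h e) := cho_J_symm G hJe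
  generalize G.h e = a at *
  generalize G.t e = z at *
  have h1 : a ≠ z := cho_J_ne G hG he hJe
  have h2 : a ≠ x := cho_J_ne G hG hfE hJx
  have h3 : a ≠ y := cho_J_ne G hG hgE hJy
  have h4 : a ≠ x' := fun h => hfe' (dig f' hfE' e he z a (h ▸ hJx') hJe')
  have h5 : a ≠ y' := fun h => hge' (dig g' hgE' e he z a (h ▸ hJy') hJe')
  have h6 : z ≠ x := fun h => hfe (dig f hfE e he a z (h ▸ hJx) hJe)
  have h7 : z ≠ y := fun h => hge (dig g hgE e he a z (h ▸ hJy) hJe)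
  have h8 : z ≠ x' := cho_J_ne G hG hfE' hJx'
  have h9 : z ≠ y' := cho_J_ne G hG hgE' hJy'
  have h10 : x ≠ y := fun h => hfg (dig f hfE g hgE a x hJx (h ▸ hJy))
  have h11 : x' ≠ y' := fun h => hfg' (dig f' hfE' g' hgE' z x' hJx' (h ▸ hJy'))
  have h12 : x ≠ x' := fun h => tri e he f hfE f' hfE' z a x hJe' hJx (cho_J_symm G (h ▸ hJx'))
  have h13 : x ≠ y' := fun h => tri e he f hfE g' hgE' z a x hJe' hJx (cho_J_symm G (h ▸ hJy'))
  have h14 : y ≠ x' := fun h => tri e he g hgE f' hfE' z a y hJe' hJy (cho_J_symm G (h ▸ hJx'))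
  have h15 : y ≠ y' := fun h => tri e he g hgE g' hgE' z a y hJe' hJy (cho_J_symm G (h ▸ hJy'))
  have hsub : ({a, z, x, y, x', y'} : Finset α) ⊆ P := by
    intro w hw
    simp only [Finset.mem_insert, Finset.mem_singleton] at hw
    rcases hw with rfl | rfl | rfl | rfl | rfl | rfl <;> assumption
  have hc : ({a, z, x, y, x', y'} : Finset α).card = 6 := by
    rw [Finset.card_insert_of_notMem (by simp [h1, h2, h3, h4, h5]),
      Finset.card_insert_of_notMem (by simp [h6, h7, h8, h9]),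
      Finset.card_insert_of_notMem (by simp [h10, h12, h13]),
      Finset.card_insert_of_notMem (by simp [h14, h15]),
      Finset.card_insert_of_notMem (by simp [h11]), Finset.card_singleton]
  have := Finset.card_le_card hsub
  omega

end Helper432.F5
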