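import Pool.Agent.H432R2.F5.Defs

namespace Helper432.F5

open Finset

variable {α β : Type} [DecidableEq α] [DecidableEq β]

theorem con_join (G : Gr α β) (hG : G.Ok) (X : Finset α) (hX : X ⊆ G.V) (h3 : (G.cut X).card = 3)
    (w : α) (hw : w ∈ G.V) (hwX : w ∉ X) (F : Finset β) (hF : G.Join F) :
    (G.con X w).Join (F ∩ (G.con X w).E) := by
  classical
  refine ⟨Finset.inter_subset_right, ?_⟩
  intro v hv
  have hv' : v = w ∨ v ∈ X := Finset.mem_insert.mp hv
  rcases hv' with rfl | hvX
  · have e : (F ∩ (G.con X v).E).filter (fun e => (G.con X v).h e = v ∨ (G.con X v).t e = v) =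
        F ∩ G.cut X := by
      ext e
      simp only [Finset.mem_filter, Finset.mem_inter]
      simp only [Gr.con, Gr.cut, Finset.mem_filter]
      have a1 : (if G.h e ∈ X then G.h e else v) = v ↔ G.h e ∉ X := by
        split_ifs with h
        · simp only [h, not_true, iff_false]
          intro h'
          exact hwX (h' ▸ h)
        · simp [h]
      have a2 : (if G.t e ∈ X then G.t e else v) = v ↔ G.t e ∉ X := by
        split_ifs with h
        · simp only [h, not_true, iff_false]
          intro h'
          exact hwX (h' ▸ h)
        · simp [h]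
      rw [a1, a2]
      tauto
    unfold Gr.deg
    rw [e]
    have h1 := G.par hG.ne F hF.1 hF.2 X hX
    have h2 := G.card_cut hG X hX
    rw [Nat.odd_iff]
    omega
  · have hvw : w ≠ v := fun h => hwX (h ▸ hvX)
    have e : (F ∩ (G.con X w).E).filter (fun e => (G.con X w).h e = v ∨ (G.con X w).t e = v) =
        F.filter (fun e => G.h e = v ∨ G.t e = v) := by
      ext e
      simp only [Finset.mem_filter, Finset.mem_inter]
      simp only [Gr.con, Finset.mem_filter]
      have a1 : (if G.h e ∈ X then G.h e else w) = v ↔ G.h e = v := by
        split_ifs with h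
        · exact Iff.rfl
        · constructor
          · intro h'; exact absurd h' hvw
          · intro h'; exact absurd (h' ▸ hvX) h
      have a2 : (if G.t e ∈ X then G.t e else w) = v ↔ G.t e = v := by
        split_ifs with h
        · exact Iff.rfl
        · constructor
          · intro h'; exact absurd h' hvw
          · intro h'; exact absurd (h' ▸ hvX) h
      rw [a1, a2]
      constructor
      · rintro ⟨⟨h1, _⟩, h2⟩
        exact ⟨h1, h2⟩
      · rintro ⟨h1, h2⟩
        refine ⟨⟨h1, hF.1 h1, ?_⟩, h2⟩
        rcases h2 with h2 | h2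
        · left; rw [h2]; exact hvX
        · right; rw [h2]; exact hvX
    unfold Gr.deg
    rw [e]
    exact hF.2 v (hX hvX)

end Helper432.F5
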