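import Pool.Agent.H432R2.F5.Defs

namespace Helper432.F5

open Finset

variable {α β : Type} [DecidableEq α] [DecidableEq β]

theorem comp_cert (V E : Type) [Fintype V] [DecidableEq V] [Fintype E] [DecidableEq E]
    (h t : E → V) (M : Finset E)
    (hM : Nat.card {c : (SimpleGraph.fromRel (fun u v : V =>
      ∃ e : E, e ∉ M ∧ h e = u ∧ t e = v)).ConnectedComponent // Odd c.supp.ncard} ≤ 4) :
    ∃ P : Finset V, P.card ≤ 5 ∧
      (⟨Finset.univ, Finset.univ, h, t⟩ : Gr V E).Cert M P := by
  classical
  set S : SimpleGraph V := SimpleGraph.fromRel (fun u v : V =>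
      ∃ e : E, e ∉ M ∧ h e = u ∧ t e = v) with hS
  have hfin : Finite S.ConnectedComponent := inferInstance
  have : Fintype S.ConnectedComponent := Fintype.ofFinite _
  have : Fintype {c : S.ConnectedComponent // Odd c.supp.ncard} := Fintype.ofFinite _
  have hch : ∀ c : {c : S.ConnectedComponent // Odd c.supp.ncard}, ∃ v : V, v ∈ c.1.supp := by
    intro c
    exact c.1.nonempty_supp
  choose f hf using hch
  refine ⟨Finset.univ.image f, ?_, ?_⟩
  · refine Finset.card_image_le.trans ?_
    rw [Finset.card_univ, ← Nat.card_eq_fintype_card]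
    omega
  · intro X _ hcl hdis
    have hadj : ∀ u v : V, S.Adj u v → (u ∈ X ↔ v ∈ X) := by
      intro u v huv
      rw [hS, SimpleGraph.fromRel_adj] at huv
      obtain ⟨_, ⟨e, he, h1, h2⟩ | ⟨e, he, h1, h2⟩⟩ := huv
      · have := hcl e (Finset.mem_univ _) he
        simp only at this
        rw [h1, h2] at this
        exact this
      · have := hcl e (Finset.mem_univ _) he
        simp only at this
        rw [h1, h2] at this
        exact this.symm
    have hreach : ∀ u v : V, S.Reachable u v → (u ∈ X ↔ v ∈ X) := by
      intro u v huv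
      obtain ⟨w⟩ := huv
      induction w with
      | nil => exact Iff.rfl
      | cons hab _ ih => exact (hadj _ _ hab).trans ih
    rw [Finset.card_eq_sum_card_fiberwise (f := S.connectedComponentMk)
      (t := (Finset.univ : Finset S.ConnectedComponent)) (fun _ _ => Finset.mem_coe.2 (Finset.mem_univ _))]
    apply Finset.even_sum
    intro c _
    by_cases hne : (X.filter (fun v => S.connectedComponentMk v = c)).Nonempty
    · obtain ⟨v, hv⟩ := hne
      rw [Finset.mem_filter] at hv
      have hall : ∀ u : V, S.connectedComponentMk u = c → u ∈ X := by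
        intro u hu
        have hr : S.Reachable u v := by
          rw [← SimpleGraph.ConnectedComponent.eq, hu, hv.2]
        exact (hreach u v hr).2 hv.1
      have hset : (↑(X.filter (fun v => S.connectedComponentMk v = c)) : Set V) = c.supp := by
        ext u
        simp only [Finset.coe_filter, SimpleGraph.ConnectedComponent.mem_supp_iff]
        constructor
        · rintro ⟨_, h2⟩
          exact h2
        · intro h2
          exact ⟨hall u h2, h2⟩
      rw [← Set.ncard_coe_finset, hset]
      by_contra hodd
      rw [Nat.not_even_iff_odd] at hodd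
      have h3 := hf ⟨c, hodd⟩
      rw [SimpleGraph.ConnectedComponent.mem_supp_iff] at h3
      have h4 := hall _ h3
      exact (Finset.disjoint_left.1 hdis h4) (Finset.mem_image.2 ⟨⟨c, hodd⟩, Finset.mem_univ _, rfl⟩)
    · rw [Finset.not_nonempty_iff_eq_empty] at hne
      rw [hne]
      simp

end Helper432.F5
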