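import Pool.Agent.H432R2.F5.Defs

namespace Helper432.F5

open Finset

variable {α β : Type} [DecidableEq α] [DecidableEq β]

theorem con_ok (G : Gr α β) (hG : G.Ok) (X : Finset α) (hX : X ⊆ G.V) (h3 : (G.cut X).card = 3)
    (w : α) (hw : w ∈ G.V) (hwX : w ∉ X)
    (hcut : ∀ Y ⊆ X, (G.con X w).cut Y = G.cut Y ∧
      (G.con X w).cut (insert w Y) = G.cut (Y ∪ (G.V \ X))) : (G.con X w).Ok := by
  constructor
  · intro e he
    show (if G.h e ∈ X then G.h e else w) ∈ insert w X
    split_ifs with h1
    · exact Finset.mem_insert_of_mem h1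
    · exact Finset.mem_insert_self _ _
  · intro e he
    show (if G.t e ∈ X then G.t e else w) ∈ insert w X
    split_ifs with h1
    · exact Finset.mem_insert_of_mem h1
    · exact Finset.mem_insert_self _ _
  · intro e he
    have he' : e ∈ G.E ∧ (G.h e ∈ X ∨ G.t e ∈ X) := Finset.mem_filter.1 he
    show (if G.h e ∈ X then G.h e else w) ≠ (if G.t e ∈ X then G.t e else w)
    by_cases h1 : G.h e ∈ X <;> by_cases h2 : G.t e ∈ X
    · rw [if_pos h1, if_pos h2]
      exact hG.ne e he'.1
    · rw [if_pos h1, if_neg h2]
      intro h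
      rw [h] at h1
      exact hwX h1
    · rw [if_neg h1, if_pos h2]
      intro h
      rw [← h] at h2
      exact hwX h2
    · exact absurd he'.2 (by tauto)
  · intro v hv
    have hv' : v = w ∨ v ∈ X := Finset.mem_insert.1 hv
    rcases hv' with hvw | hvX
    · rw [← h3]
      show ((G.E.filter (fun e => G.h e ∈ X ∨ G.t e ∈ X)).filter
        (fun e => (if G.h e ∈ X then G.h e else w) = v ∨
          (if G.t e ∈ X then G.t e else w) = v)).card = _
      congr 1
      ext e
      unfold Gr.cut
      rw [Finset.mem_filter, Finset.mem_filter, Finset.mem_filter]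
      by_cases h1 : G.h e ∈ X <;> by_cases h2 : G.t e ∈ X
      · have n1 : G.h e ≠ v := fun h => hwX (by rw [← hvw, ← h]; exact h1)
        have n2 : G.t e ≠ v := fun h => hwX (by rw [← hvw, ← h]; exact h2)
        simp [h1, h2, n1, n2]
      · simp [h1, h2, hvw]
      · simp [h1, h2, hvw]
      · simp [h1, h2]
    · have hvw : w ≠ v := fun h => hwX (by rw [h]; exact hvX)
      rw [← hG.cub v (hX hvX)]
      show ((G.E.filter (fun e => G.h e ∈ X ∨ G.t e ∈ X)).filter
        (fun e => (if G.h e ∈ X then G.h e else w) = v ∨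
          (if G.t e ∈ X then G.t e else w) = v)).card =
        (G.E.filter (fun e => G.h e = v ∨ G.t e = v)).card
      congr 1
      ext e
      rw [Finset.mem_filter, Finset.mem_filter, Finset.mem_filter]
      by_cases h1 : G.h e ∈ X <;> by_cases h2 : G.t e ∈ X
      · simp [h1, h2]
      · have n2 : G.t e ≠ v := fun h => h2 (by rw [h]; exact hvX)
        simp [h1, h2, hvw, n2]
      · have n1 : G.h e ≠ v := fun h => h1 (by rw [h]; exact hvX)
        simp [h1, h2, hvw, n1]
      · have n1 : G.h e ≠ v := fun h => h1 (by rw [h]; exact hvX)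
        have n2 : G.t e ≠ v := fun h => h2 (by rw [h]; exact hvX)
        simp [h1, h2, n1, n2]
  · intro Y hY
    have hY' : Y ⊆ insert w X := hY
    by_cases hwY : w ∈ Y
    · have hE : Y.erase w ⊆ X := by
        intro a ha
        have h1 := Finset.mem_erase.1 ha
        rcases Finset.mem_insert.1 (hY' h1.2) with h2 | h2
        · exact absurd h2 h1.1
        · exact h2
      rw [← Finset.insert_erase hwY, (hcut (Y.erase w) hE).2]
      exact hG.br _ (Finset.union_subset (hE.trans hX) Finset.sdiff_subset)
    · have hE : Y ⊆ X := by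
        intro a ha
        rcases Finset.mem_insert.1 (hY' ha) with h2 | h2
        · rw [h2] at ha
          exact absurd ha hwY
        · exact h2
      rw [(hcut Y hE).1]
      exact hG.br _ (hE.trans hX)

end Helper432.F5
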