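import Pool.Agent.H432R2.F5.Defs

namespace Helper432.F5

open Finset

variable {α β : Type} [DecidableEq α] [DecidableEq β]

theorem con_cut (G : Gr α β) (hG : G.Ok) (X : Finset α) (hX : X ⊆ G.V) (w : α) (hw : w ∈ G.V)
    (hwX : w ∉ X) (Y : Finset α) (hY : Y ⊆ X) :
    (G.con X w).cut Y = G.cut Y ∧ (G.con X w).cut (insert w Y) = G.cut (Y ∪ (G.V \ X)) := by
  have hwY : w ∉ Y := fun h => hwX (hY h)
  constructor
  · ext e
    unfold Gr.cut Gr.con
    simp only [Finset.mem_filter]
    by_cases he : e ∈ G.E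
    · by_cases h1 : G.h e ∈ X <;> by_cases h2 : G.t e ∈ X
      · simp [he, h1, h2]
      · have h4 : G.t e ∉ Y := fun h => h2 (hY h)
        simp [he, h1, h2, h4, hwY]
      · have h3 : G.h e ∉ Y := fun h => h1 (hY h)
        simp [he, h1, h2, h3, hwY]
      · have h3 : G.h e ∉ Y := fun h => h1 (hY h)
        have h4 : G.t e ∉ Y := fun h => h2 (hY h)
        simp [he, h1, h2, h3, h4]
    · simp [he]
  · ext e
    unfold Gr.cut Gr.con
    simp only [Finset.mem_filter, Finset.mem_insert, Finset.mem_union, Finset.mem_sdiff]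
    by_cases he : e ∈ G.E
    · have hh := hG.hV e he
      have ht := hG.tV e he
      by_cases h1 : G.h e ∈ X <;> by_cases h2 : G.t e ∈ X
      · have h5 : G.h e ≠ w := fun h => hwX (h ▸ h1)
        have h6 : G.t e ≠ w := fun h => hwX (h ▸ h2)
        simp [he, h1, h2, h5, h6]
      · have h4 : G.t e ∉ Y := fun h => h2 (hY h)
        have h5 : G.h e ≠ w := fun h => hwX (h ▸ h1)
        simp [he, h1, h2, h4, h5, ht]
      · have h3 : G.h e ∉ Y := fun h => h1 (hY h)
        have h6 : G.t e ≠ w := fun h => hwX (h ▸ h2)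
        simp [he, h1, h2, h3, h6, hh]
      · have h3 : G.h e ∉ Y := fun h => h1 (hY h)
        have h4 : G.t e ∉ Y := fun h => h2 (hY h)
        simp [he, h1, h2, hh, ht]
    · simp [he]

end Helper432.F5
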