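import Pool.Agent.H432R2.F5.Defs

namespace Helper432.F5

open Finset

variable {α β : Type} [DecidableEq α] [DecidableEq β]

theorem DEG_sum (A S : Finset β) (f : β → ℕ) :
    ∑ e ∈ A, f e = ∑ e ∈ A \ S, f e + ∑ e ∈ S, (if e ∈ A then f e else 0) := by
  rw [Finset.sum_ite_mem, Finset.inter_comm, add_comm, Finset.sum_inter_add_sum_sdiff]

theorem DEG_five (ea em ex eb eb' : β) (hn : [ea, em, ex, eb, eb'].Nodup) (f : β → ℕ) :
    ∑ e ∈ ({ea, em, ex, eb, eb'} : Finset β), f e = f ea + (f em + (f ex + (f eb + f eb'))) := by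
  simp only [List.nodup_cons, List.mem_cons, List.not_mem_nil, or_false, not_or,
    not_false_eq_true, List.nodup_nil, and_true] at hn
  obtain ⟨⟨h1, h2, h3, h4⟩, ⟨h5, h6, h7⟩, ⟨h8, h9⟩, h10⟩ := hn
  rw [Finset.sum_insert, Finset.sum_insert, Finset.sum_insert, Finset.sum_insert,
    Finset.sum_singleton]
  · simpa using h10
  · simp [h8, h9]
  · simp [h5, h6, h7]
  · simp [h1, h2, h3, h4]

theorem DEG_J (G : Gr α β) (e : β) (u w v : α) (h : G.J e u w) :
    (G.h e = v ∨ G.t e = v) ↔ (u = v ∨ w = v) := by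
  rcases h with ⟨h1, h2⟩ | ⟨h1, h2⟩
  · rw [h1, h2]
  · rw [h1, h2, or_comm]

theorem red_deg (G : Gr α β) (hG : G.Ok) (F : Finset β) (a x y b x' b' : α)
    (ea em ex eb eb' : β) (hR : G.Red F a x y b x' b' ea em ex eb eb')
    (A : Finset β) (hA : A ⊆ G.E) (h1 : ea ∈ A ↔ eb ∈ A) (h2 : ex ∈ A ↔ eb' ∈ A)
    (v : α) (hv : v ∈ G.V) (hvx : v ≠ x) (hvy : v ≠ y) :
    (G.red a x y b x' b' ea em ex eb eb').deg (A \ {em, eb, eb'}) v = G.deg A v := by
  have hn := hR.end_
  have hvn := hR.vnd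
  simp only [List.nodup_cons, List.mem_cons, List.not_mem_nil, or_false, not_or,
    not_false_eq_true, List.nodup_nil, and_true] at hn hvn
  obtain ⟨⟨n1, n2, n3, n4⟩, ⟨n5, n6, n7⟩, ⟨n8, n9⟩, n10⟩ := hn
  obtain ⟨⟨m1, m2, m3, m4, m5⟩, ⟨m6, m7, m8, m9⟩, ⟨m10, m11, m12⟩, ⟨m13, m14⟩, m15⟩ := hvn
  unfold Gr.deg
  rw [Finset.card_filter, Finset.card_filter,
    DEG_sum (A \ {em, eb, eb'}) {ea, em, ex, eb, eb'}, DEG_sum A {ea, em, ex, eb, eb'},
    DEG_five _ _ _ _ _ hR.end_, DEG_five _ _ _ _ _ hR.end_]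
  have e1 : (A \ {em, eb, eb'}) \ {ea, em, ex, eb, eb'} = A \ {ea, em, ex, eb, eb'} := by
    ext e
    simp only [Finset.mem_sdiff, Finset.mem_insert, Finset.mem_singleton]
    tauto
  rw [e1]
  have e2 : ∑ e ∈ A \ {ea, em, ex, eb, eb'},
      (if (G.red a x y b x' b' ea em ex eb eb').h e = v ∨
        (G.red a x y b x' b' ea em ex eb eb').t e = v then 1 else 0) =
      ∑ e ∈ A \ {ea, em, ex, eb, eb'}, (if G.h e = v ∨ G.t e = v then 1 else 0) := by
    apply Finset.sum_congr rfl
    intro e he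
    simp only [Finset.mem_sdiff, Finset.mem_insert, Finset.mem_singleton, not_or] at he
    unfold Gr.red
    simp only [Function.update_of_ne he.2.1, Function.update_of_ne he.2.2.2.1]
  rw [e2]
  congr 1
  -- the special edges in the reduced graph
  have r1 : (G.red a x y b x' b' ea em ex eb eb').h ea = a := by
    unfold Gr.red
    simp only [Function.update_of_ne n2, Function.update_self]
  have r2 : (G.red a x y b x' b' ea em ex eb eb').t ea = b := by
    unfold Gr.red
    simp only [Function.update_of_ne n2, Function.update_self]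
  have r3 : (G.red a x y b x' b' ea em ex eb eb').h ex = x' := by
    unfold Gr.red
    simp only [Function.update_self]
  have r4 : (G.red a x y b x' b' ea em ex eb eb').t ex = b' := by
    unfold Gr.red
    simp only [Function.update_self]
  rw [r1, r2, r3, r4]
  have s1 : em ∉ A \ {em, eb, eb'} := by simp
  have s2 : eb ∉ A \ {em, eb, eb'} := by simp
  have s3 : eb' ∉ A \ {em, eb, eb'} := by simp
  have s4 : ea ∈ A \ {em, eb, eb'} ↔ ea ∈ A := by
    simp only [Finset.mem_sdiff, Finset.mem_insert, Finset.mem_singleton]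
    tauto
  have s5 : ex ∈ A \ {em, eb, eb'} ↔ ex ∈ A := by
    simp only [Finset.mem_sdiff, Finset.mem_insert, Finset.mem_singleton]
    constructor
    · exact fun h => h.1
    · exact fun h => ⟨h, by rintro (h | h | h); exacts [n5 h.symm, n8 h, n9 h]⟩
  rw [if_neg s1, if_neg s2, if_neg s3]
  have hvx' : ¬ (x = v) := fun h => hvx h.symm
  have hvy' : ¬ (y = v) := fun h => hvy h.symm
  simp only [s4, s5, DEG_J G ea a x v hR.Ja, DEG_J G em x y v hR.Jm, DEG_J G ex x x' v hR.Jx,
    DEG_J G eb y b v hR.Jb, DEG_J G eb' y b' v hR.Jb', hvx', hvy', false_or, or_false, if_false,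
    ← h1, ← h2]
  have g1 : (if a = v ∨ b = v then 1 else 0) = (if a = v then 1 else 0) + (if b = v then 1 else 0) := by
    by_cases q1 : a = v
    · have q2 : b ≠ v := fun h => m3 (q1.trans h.symm)
      simp [q1, q2]
    · simp [q1]
  have g2 : (if x' = v ∨ b' = v then 1 else 0) =
      (if x' = v then 1 else 0) + (if b' = v then 1 else 0) := by
    by_cases q1 : x' = v
    · have q2 : b' ≠ v := fun h => m15 (q1.trans h.symm)
      simp [q1, q2]
    · simp [q1]
  rw [g1, g2]
  by_cases q5 : ea ∈ A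
  · by_cases q6 : ex ∈ A
    · simp only [if_pos q5, if_pos q6, ite_self]
      ring
    · simp only [if_pos q5, if_neg q6, ite_self]
      ring
  · by_cases q6 : ex ∈ A
    · simp only [if_neg q5, if_pos q6, ite_self]
      ring
    · simp only [if_neg q5, if_neg q6, ite_self]

end Helper432.F5
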