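import Pool.Agent.H432R2.F5.Defs

namespace Helper432.F5

open Finset

variable {α β : Type} [DecidableEq α] [DecidableEq β]

theorem no_digon (G : Gr α β) (hG : G.Ok) (h6 : 6 ≤ G.V.card)
    (c4 : ∀ X ⊆ G.V, 2 ≤ X.card → 2 ≤ (G.V \ X).card → 4 ≤ (G.cut X).card)
    (e f : β) (he : e ∈ G.E) (hf : f ∈ G.E) (u v : α) (h1 : G.J e u v) (h2 : G.J f u v) :
    e = f := by
  by_contra hne
  have huv : u ≠ v := by
    intro h
    have := hG.ne e he
    rcases h1 with ⟨a, b⟩ | ⟨a, b⟩
    · exact this (a.trans (h.trans b.symm))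
    · exact this (a.trans (h.symm.trans b.symm))
  have hu : u ∈ G.V := by
    rcases h1 with ⟨a, b⟩ | ⟨a, b⟩
    · rw [← a]; exact hG.hV e he
    · rw [← b]; exact hG.tV e he
  have hv : v ∈ G.V := by
    rcases h1 with ⟨a, b⟩ | ⟨a, b⟩
    · rw [← b]; exact hG.tV e he
    · rw [← a]; exact hG.hV e he
  have hX : ({u, v} : Finset α) ⊆ G.V := by
    intro z hz
    rcases Finset.mem_insert.mp hz with h | h
    · rw [h]; exact hu
    · rw [Finset.mem_singleton.mp h]; exact hv
  have hc : ({u, v} : Finset α).card = 2 := Finset.card_pair huv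
  have hs : (G.V \ {u, v}).card = G.V.card - 2 := by
    rw [Finset.card_sdiff_of_subset hX, hc]
  have h4 := c4 {u, v} hX (by rw [hc]) (by rw [hs]; omega)
  have hcc := G.card_cut hG {u, v} hX
  have hin : ∀ g : β, g ∈ G.E → G.J g u v → g ∈ G.inn G.E {u, v} := by
    intro g hg hJ
    unfold Gr.inn
    rw [Finset.mem_filter]
    refine ⟨hg, ?_⟩
    rcases hJ with ⟨a, b⟩ | ⟨a, b⟩
    · rw [a, b]; simp
    · rw [a, b]; simp
  have h2c : 2 ≤ (G.inn G.E {u, v}).card := by
    have hsub : ({e, f} : Finset β) ⊆ G.inn G.E {u, v} := by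
      intro z hz
      rcases Finset.mem_insert.mp hz with h | h
      · rw [h]; exact hin e he h1
      · rw [Finset.mem_singleton.mp h]; exact hin f hf h2
    calc 2 = ({e, f} : Finset β).card := (Finset.card_pair hne).symm
      _ ≤ _ := Finset.card_le_card hsub
  rw [hc] at hcc
  omega

end Helper432.F5
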