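import Pool.Agent.H432R2.F5.Defs

namespace Helper432.F5

open Finset

variable {α β : Type} [DecidableEq α] [DecidableEq β]

/-- the vector of three booleans -/
def FIV_g (a b c : Bool) : Fin 3 → ZMod 2 :=
  ![if a then 0 else 1, if b then 0 else 1, if c then 0 else 1]

/-- the five lines -/
def FIV_fam : Finset (Finset (Fin 3 → ZMod 2)) :=
  {{![0, 0, 1], ![1, 1, 0], ![1, 1, 1]}, {![0, 1, 0], ![1, 0, 1], ![1, 1, 1]},
    {![0, 1, 1], ![1, 0, 0], ![1, 1, 1]}, {![0, 1, 1], ![1, 0, 1], ![1, 1, 0]},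
    {![0, 1, 0], ![1, 0, 0], ![1, 1, 0]}}

/-- the conditions at a vertex -/
def FIV_P (a0 a1 a2 b0 b1 b2 c0 c1 c2 : Bool) : Prop :=
    a0.toNat + a1.toNat + a2.toNat = 1 ∧ b0.toNat + b1.toNat + b2.toNat = 1 ∧
    (c0.toNat + c1.toNat + c2.toNat) % 2 = 1 ∧ ¬ (a0 = true ∧ b0 = true ∧ c0 = true) ∧
    ¬ (a1 = true ∧ b1 = true ∧ c1 = true) ∧ ¬ (a2 = true ∧ b2 = true ∧ c2 = true)

instance (a0 a1 a2 b0 b1 b2 c0 c1 c2 : Bool) : Decidable (FIV_P a0 a1 a2 b0 b1 b2 c0 c1 c2) := by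
  unfold FIV_P; infer_instance

/-- the conclusions at a vertex -/
def FIV_R (a0 a1 a2 b0 b1 b2 c0 c1 c2 : Bool) : Prop :=
    FIV_g a0 b0 c0 + FIV_g a1 b1 c1 + FIV_g a2 b2 c2 = 0 ∧
    ({FIV_g a0 b0 c0, FIV_g a1 b1 c1, FIV_g a2 b2 c2} : Finset (Fin 3 → ZMod 2)) ∈ FIV_fam

instance (a0 a1 a2 b0 b1 b2 c0 c1 c2 : Bool) : Decidable (FIV_R a0 a1 a2 b0 b1 b2 c0 c1 c2) := by
  unfold FIV_R; infer_instance

theorem FIV_key : ∀ a0 a1 a2 b0 b1 b2 c0 c1 c2 : Bool,
    FIV_P a0 a1 a2 b0 b1 b2 c0 c1 c2 → FIV_R a0 a1 a2 b0 b1 b2 c0 c1 c2 := by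
  decide +kernel

theorem FIV_count {E : Type} [Fintype E] [DecidableEq E] (P : E → Prop) [DecidablePred P]
    (e0 e1 e2 : E) (h01 : e0 ≠ e1) (h02 : e0 ≠ e2) (h12 : e1 ≠ e2)
    (hS : Finset.univ.filter P = {e0, e1, e2}) (M : Finset E) :
    (M.filter P).card =
      (decide (e0 ∈ M)).toNat + (decide (e1 ∈ M)).toNat + (decide (e2 ∈ M)).toNat := by
  have h1 : M.filter P = ({e0, e1, e2} : Finset E).filter (fun e => e ∈ M) := by
    rw [← hS]
    ext e
    simp only [Finset.mem_filter, Finset.mem_univ, true_and]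
    exact and_comm
  rw [h1, Finset.card_filter]
  rw [Finset.sum_insert (by simp [h01, h02]), Finset.sum_insert (by simp [h12]),
    Finset.sum_singleton]
  have h2 : ∀ e : E, (if e ∈ M then 1 else 0) = (decide (e ∈ M)).toNat := by
    intro e
    by_cases he : e ∈ M <;> simp [he]
  rw [h2, h2, h2]
  ring

theorem five (V E : Type) [Fintype V] [DecidableEq V] [Fintype E] [DecidableEq E]
    (h t : E → V) (hloop : ∀ e, h e ≠ t e) (M1 M2 J : Finset E)
    (hcub : ∀ v, (Finset.univ.filter (fun e => h e = v ∨ t e = v)).card = 3)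
    (h1 : ∀ v, (M1.filter (fun e => h e = v ∨ t e = v)).card = 1)
    (h2 : ∀ v, (M2.filter (fun e => h e = v ∨ t e = v)).card = 1)
    (hJ : ∀ v, Odd (J.filter (fun e => h e = v ∨ t e = v)).card)
    (hdisj : ∀ e, ¬ (e ∈ M1 ∧ e ∈ M2 ∧ e ∈ J)) :
    ∃ f : E → (Fin 3 → ZMod 2),
      (∀ e, f e ≠ 0) ∧
      (∀ v, (∑ e ∈ Finset.univ.filter (fun e => h e = v), f e)
            + (∑ e ∈ Finset.univ.filter (fun e => t e = v), f e) = 0) ∧
      (Finset.univ.image
        (fun v => (Finset.univ.filter (fun e => h e = v ∨ t e = v)).image f)).card ≤ 5 ∧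
      (∀ e, f e 0 = 0 ↔ e ∈ M1) ∧ (∀ e, f e 1 = 0 ↔ e ∈ M2) := by
  have key : ∀ v, (∑ e ∈ Finset.univ.filter (fun e => h e = v ∨ t e = v),
        FIV_g (decide (e ∈ M1)) (decide (e ∈ M2)) (decide (e ∈ J))) = 0 ∧
      (Finset.univ.filter (fun e => h e = v ∨ t e = v)).image
        (fun e => FIV_g (decide (e ∈ M1)) (decide (e ∈ M2)) (decide (e ∈ J))) ∈ FIV_fam := by
    intro v
    obtain ⟨e0, e1, e2, h01, h02, h12, hS⟩ := Finset.card_eq_three.1 (hcub v)
    have c1 := FIV_count _ e0 e1 e2 h01 h02 h12 hS M1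
    have c2 := FIV_count _ e0 e1 e2 h01 h02 h12 hS M2
    have c3 := FIV_count _ e0 e1 e2 h01 h02 h12 hS J
    rw [h1 v] at c1
    rw [h2 v] at c2
    have c4 := hJ v
    rw [c3, Nat.odd_iff] at c4
    have hd : ∀ e, ¬ (decide (e ∈ M1) = true ∧ decide (e ∈ M2) = true ∧ decide (e ∈ J) = true) := by
      intro e
      simp only [decide_eq_true_eq]
      exact hdisj e
    have hk := FIV_key _ _ _ _ _ _ _ _ _ ⟨c1.symm, c2.symm, c4, hd e0, hd e1, hd e2⟩
    rw [hS]
    refine ⟨?_, ?_⟩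
    · rw [Finset.sum_insert (by simp [h01, h02]), Finset.sum_insert (by simp [h12]),
        Finset.sum_singleton, ← add_assoc]
      exact hk.1
    · rw [Finset.image_insert, Finset.image_insert, Finset.image_singleton]
      exact hk.2
  refine ⟨fun e => FIV_g (decide (e ∈ M1)) (decide (e ∈ M2)) (decide (e ∈ J)), ?_, ?_, ?_, ?_, ?_⟩
  · intro e he
    apply hdisj e
    have z0 := congrFun he 0
    have z1 := congrFun he 1
    have z2 := congrFun he 2
    simp only [FIV_g, Matrix.cons_val_zero, Matrix.cons_val_one, Matrix.cons_val, Pi.zero_apply,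
      decide_eq_true_eq] at z0 z1 z2
    refine ⟨?_, ?_, ?_⟩
    · by_contra hc
      rw [if_neg hc] at z0
      exact one_ne_zero z0
    · by_contra hc
      rw [if_neg hc] at z1
      exact one_ne_zero z1
    · by_contra hc
      rw [if_neg hc] at z2
      exact one_ne_zero z2
  · intro v
    rw [← Finset.sum_union, ← Finset.filter_or]
    · exact (key v).1
    · rw [Finset.disjoint_left]
      intro e he he'
      exact hloop e (((Finset.mem_filter.1 he).2).trans ((Finset.mem_filter.1 he').2).symm)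
  · refine le_trans (Finset.card_le_card (t := FIV_fam) ?_) Finset.card_le_five
    intro s hs
    obtain ⟨v, -, rfl⟩ := Finset.mem_image.1 hs
    exact (key v).2
  · intro e
    simp only [FIV_g, Matrix.cons_val_zero, decide_eq_true_eq]
    by_cases he : e ∈ M1 <;> simp [he]
  · intro e
    simp only [FIV_g, Matrix.cons_val_one, decide_eq_true_eq]
    by_cases he : e ∈ M2 <;> simp [he]

end Helper432.F5

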