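import Pool.Agent.H432R2.F5.Defs

namespace Helper432.F5

open Finset

variable {α β : Type} [DecidableEq α] [DecidableEq β]

theorem GLG_mem (G : Gr α β) (X : Finset α) (e : β) :
    e ∈ G.cut X ↔ e ∈ G.E ∧ ((G.h e ∈ X ∧ G.t e ∉ X) ∨ (G.h e ∉ X ∧ G.t e ∈ X)) := by
  unfold Gr.cut
  rw [Finset.mem_filter]

theorem GLG_even (G : Gr α β) (hG : G.Ok) (A : Finset β) (hA : G.Join A) (Z : Finset α)
    (hZ : Z ⊆ G.V) : Even (G.cut Z \ A).card := by
  have h1 := G.par hG.ne A hA.1 hA.2 Z hZ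
  have h2 := G.par hG.ne G.E hG.joinE.1 hG.joinE.2 Z hZ
  have h3 : G.E ∩ G.cut Z = G.cut Z :=
    Finset.inter_eq_right.mpr (Finset.filter_subset _ _)
  rw [h3] at h2
  rw [Finset.inter_comm] at h1
  have h4 := Finset.card_sdiff_add_card_inter (G.cut Z) A
  rw [Nat.even_iff]
  omega

/-- if the cut of the odd set `Z` is contained in `M`, there is a contradiction -/
theorem GLG_one (G : Gr α β) (hG : G.Ok) (F M : Finset β) (hF : G.Join F)
    (X Y Z : Finset α) (f : β) (hf : M ∩ G.cut X = {f}) (hY : G.cut Y ⊆ F ∩ M)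
    (hZ : Z ⊆ G.V) (hZc : ∀ e ∈ G.cut Z, e ∈ G.cut Y ∨ e ∈ G.cut X)
    (hZM : G.cut Z ⊆ M) : G.cut Z ⊆ F ∩ M := by
  have h1 : G.cut Z \ F ⊆ {f} := by
    intro e he
    rw [Finset.mem_sdiff] at he
    rw [← hf, Finset.mem_inter]
    refine ⟨hZM he.1, ?_⟩
    rcases hZc e he.1 with h | h
    · exact absurd (Finset.mem_inter.1 (hY h)).1 he.2
    · exact h
  have h2 := Finset.card_le_card h1
  rw [Finset.card_singleton] at h2
  have h3 := GLG_even G hG F hF Z hZ
  have h4 : (G.cut Z \ F).card = 0 := by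
    rw [Nat.even_iff] at h3
    omega
  rw [Finset.card_eq_zero, Finset.sdiff_eq_empty_iff_subset] at h4
  exact Finset.subset_inter h4 hZM

theorem GLG_aux (G : Gr α β) (hG : G.Ok) (F M : Finset β) (hF : G.Join F) (hM : G.PM M)
    (X : Finset α) (hX : X ⊆ G.V) (h3 : (G.cut X).card = 3) (f : β) (hf : M ∩ G.cut X = {f})
    (g1 : ∀ Y ⊆ X, G.cut Y ⊆ F ∩ M → Even Y.card)
    (g2 : ∀ Y ⊆ G.V \ X, G.cut Y ⊆ F ∩ M → Even Y.card)
    (Y : Finset α) (hYV : Y ⊆ G.V) (hY : G.cut Y ⊆ F ∩ M) (hA : Odd (Y ∩ X).card)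
    (hB : Odd (G.V \ (X ∪ Y)).card) : False := by
  have hAV : Y ∩ X ⊆ G.V := Finset.inter_subset_left.trans hYV
  have hBV : G.V \ (X ∪ Y) ⊆ G.V := Finset.sdiff_subset
  have cA : ∀ e ∈ G.cut (Y ∩ X), e ∈ G.cut Y ∨ e ∈ G.cut X := by
    intro e he
    rw [GLG_mem] at he
    rw [GLG_mem, GLG_mem]
    simp only [Finset.mem_inter] at he
    tauto
  have cB : ∀ e ∈ G.cut (G.V \ (X ∪ Y)), e ∈ G.cut Y ∨ e ∈ G.cut X := by
    intro e he
    rw [GLG_mem] at he
    rw [GLG_mem, GLG_mem]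
    have h1 := hG.hV e he.1
    have h2 := hG.tV e he.1
    simp only [Finset.mem_sdiff, Finset.mem_union, h1, h2, true_and] at he
    tauto
  by_cases hAM : G.cut (Y ∩ X) ⊆ M
  · have h4 := g1 (Y ∩ X) Finset.inter_subset_right
      (GLG_one G hG F M hF X Y _ f hf hY hAV cA hAM)
    exact (Nat.not_even_iff_odd.2 hA) h4
  by_cases hBM : G.cut (G.V \ (X ∪ Y)) ⊆ M
  · have h4 := g2 (G.V \ (X ∪ Y)) (by
        intro v hv
        simp only [Finset.mem_sdiff, Finset.mem_union] at hv ⊢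
        tauto)
      (GLG_one G hG F M hF X Y _ f hf hY hBV cB hBM)
    exact (Nat.not_even_iff_odd.2 hB) h4
  -- both nonempty and even
  have e1 := GLG_even G hG M hM.join _ hAV
  have e2 := GLG_even G hG M hM.join _ hBV
  have n1 : 0 < (G.cut (Y ∩ X) \ M).card := by
    rw [Finset.card_pos, Finset.sdiff_nonempty]
    exact hAM
  have n2 : 0 < (G.cut (G.V \ (X ∪ Y)) \ M).card := by
    rw [Finset.card_pos, Finset.sdiff_nonempty]
    exact hBM
  have hnY : ∀ e, e ∉ M → e ∉ G.cut Y := fun e he h => he (Finset.mem_inter.1 (hY h)).2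
  have hdis : Disjoint (G.cut (Y ∩ X) \ M) (G.cut (G.V \ (X ∪ Y)) \ M) := by
    rw [Finset.disjoint_left]
    intro e he he'
    rw [Finset.mem_sdiff, GLG_mem] at he he'
    have h5 := hnY e he.2
    rw [GLG_mem] at h5
    simp only [Finset.mem_inter, Finset.mem_sdiff, Finset.mem_union] at he he'
    tauto
  have hsub : (G.cut (Y ∩ X) \ M) ∪ (G.cut (G.V \ (X ∪ Y)) \ M) ⊆ G.cut X \ M := by
    intro e he
    rw [Finset.mem_union, Finset.mem_sdiff, Finset.mem_sdiff] at he
    rw [Finset.mem_sdiff]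
    rcases he with he | he
    · refine ⟨?_, he.2⟩
      rcases cA e he.1 with h | h
      · exact absurd h (hnY e he.2)
      · exact h
    · refine ⟨?_, he.2⟩
      rcases cB e he.1 with h | h
      · exact absurd h (hnY e he.2)
      · exact h
  have h6 := Finset.card_le_card hsub
  rw [Finset.card_union_of_disjoint hdis] at h6
  have h7 := Finset.card_sdiff_add_card_inter (G.cut X) M
  rw [Finset.inter_comm, hf, Finset.card_singleton, h3] at h7
  rw [Nat.even_iff] at e1 e2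
  omega

theorem glue_good (G : Gr α β) (hG : G.Ok) (F M : Finset β) (hF : G.Join F) (hM : G.PM M)
    (X : Finset α) (hX : X ⊆ G.V) (h3 : (G.cut X).card = 3) (f : β) (hf : M ∩ G.cut X = {f})
    (g1 : ∀ Y ⊆ X, G.cut Y ⊆ F ∩ M → Even Y.card)
    (g2 : ∀ Y ⊆ G.V \ X, G.cut Y ⊆ F ∩ M → Even Y.card) : G.Good F M := by
  intro Y hYV hY
  by_contra hodd
  rw [Nat.not_even_iff_odd] at hodd
  have hXc := G.card_cut hG X hX
  rw [h3] at hXc
  have hV := G.even_V hG
  -- cardinals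
  have k1 : (Y ∩ X).card + (X \ Y).card = X.card := by
    rw [Finset.inter_comm, add_comm]
    exact Finset.card_sdiff_add_card_inter X Y
  have k2 : (Y ∩ X).card + (Y \ X).card = Y.card := by
    rw [add_comm]
    exact Finset.card_sdiff_add_card_inter Y X
  have k3 : (G.V \ (X ∪ Y)).card + (X ∪ Y).card = G.V.card :=
    Finset.card_sdiff_add_card_eq_card (Finset.union_subset hX hYV)
  have k4 : (X ∪ Y).card + (Y ∩ X).card = X.card + Y.card := by
    rw [Finset.inter_comm]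
    exact Finset.card_union_add_card_inter X Y
  rw [Nat.odd_iff] at hodd
  rw [Nat.even_iff] at hV
  rcases Nat.even_or_odd (Y ∩ X).card with hA | hA
  · rw [Nat.even_iff] at hA
    have e1 : (G.V \ Y) ∩ X = X \ Y := by
      ext v
      simp only [Finset.mem_inter, Finset.mem_sdiff]
      constructor
      · tauto
      · intro h; exact ⟨⟨hX h.1, h.2⟩, h.1⟩
    have e2 : G.V \ (X ∪ (G.V \ Y)) = Y \ X := by
      ext v
      simp only [Finset.mem_union, Finset.mem_sdiff]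
      constructor
      · tauto
      · intro h
        have := hYV h.1
        tauto
    refine GLG_aux G hG F M hF hM X hX h3 f hf g1 g2 (G.V \ Y) Finset.sdiff_subset ?_ ?_ ?_
    · rw [G.cut_compl hG]; exact hY
    · rw [e1, Nat.odd_iff]; omega
    · rw [e2, Nat.odd_iff]; omega
  · refine GLG_aux G hG F M hF hM X hX h3 f hf g1 g2 Y hYV hY hA ?_
    rw [Nat.odd_iff] at hA ⊢
    omega

end Helper432.F5
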