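import Pool.Agent.H432R2.F5.Defs

namespace Helper432.F5

open Finset

variable {α β : Type} [DecidableEq α] [DecidableEq β]

theorem GPM_h (G : Gr α β) (X : Finset α) (w : α) (e : β) :
    (G.con X w).h e = if G.h e ∈ X then G.h e else w := rfl

theorem GPM_t (G : Gr α β) (X : Finset α) (w : α) (e : β) :
    (G.con X w).t e = if G.t e ∈ X then G.t e else w := rfl

theorem GPM_memE (G : Gr α β) (X : Finset α) (w : α) (e : β) :
    e ∈ (G.con X w).E ↔ e ∈ G.E ∧ (G.h e ∈ X ∨ G.t e ∈ X) := by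
  show e ∈ G.E.filter (fun e => G.h e ∈ X ∨ G.t e ∈ X) ↔ _
  rw [mem_filter]

theorem GPM_memcut (G : Gr α β) (X : Finset α) (e : β) :
    e ∈ G.cut X ↔ e ∈ G.E ∧ ((G.h e ∈ X ∧ G.t e ∉ X) ∨ (G.h e ∉ X ∧ G.t e ∈ X)) := by
  unfold Gr.cut
  rw [mem_filter]

/-- incidence with the new vertex -/
theorem GPM_new (G : Gr α β) (X : Finset α) (w : α) (hw : w ∉ X) (e : β)
    (he : e ∈ (G.con X w).E) :
    ((G.con X w).h e = w ∨ (G.con X w).t e = w) ↔ e ∈ G.cut X := by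
  rw [GPM_memE] at he
  rw [GPM_h, GPM_t, GPM_memcut]
  by_cases h1 : G.h e ∈ X
  · have h2 : G.h e ≠ w := fun h => hw (h ▸ h1)
    by_cases h3 : G.t e ∈ X
    · have h4 : G.t e ≠ w := fun h => hw (h ▸ h3)
      simp [h1, h2, h3, h4]
    · simp [h1, h3, he.1]
  · by_cases h3 : G.t e ∈ X
    · simp [h1, h3, he.1]
    · exact absurd he.2 (by simp [h1, h3])

/-- incidence with an old vertex -/
theorem GPM_old (G : Gr α β) (X : Finset α) (w v : α) (hw : w ∉ X) (hv : v ∈ X) (e : β) :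
    ((G.con X w).h e = v ∨ (G.con X w).t e = v) ↔ (G.h e = v ∨ G.t e = v) := by
  have hwv : w ≠ v := fun h => hw (h ▸ hv)
  have key : ∀ a : α, (if a ∈ X then a else w) = v ↔ a = v := by
    intro a
    by_cases h : a ∈ X
    · simp [h]
    · have : a ≠ v := fun h' => h (h' ▸ hv)
      simp [h, hwv, this]
  rw [GPM_h, GPM_t, key, key]

/-- one side -/
theorem GPM_side (G : Gr α β) (X : Finset α) (w : α) (hw : w ∉ X) (M : Finset β)
    (hM : (G.con X w).PM M) (f : β) (hf : f ∈ G.cut X) (hfM : f ∈ M) :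
    ∀ e ∈ M, e ∈ G.cut X → e = f := by
  have h1 := hM.2 w (mem_insert_self _ _)
  unfold Gr.deg at h1
  obtain ⟨a, ha⟩ := card_eq_one.1 h1
  have h2 : ∀ e ∈ M, e ∈ G.cut X → e = a := by
    intro e he hc
    have : e ∈ M.filter (fun e => (G.con X w).h e = w ∨ (G.con X w).t e = w) :=
      mem_filter.2 ⟨he, (GPM_new G X w hw e (hM.1 he)).2 hc⟩
    rw [ha] at this
    exact mem_singleton.1 this
  intro e he hc
  rw [h2 e he hc, h2 f hfM hf]

theorem GPM_deg (G : Gr α β) (X : Finset α) (w : α) (hw : w ∉ X) (M M' : Finset β)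
    (hM : (G.con X w).PM M) (hM' : ∀ e ∈ M', e ∈ (G.con X w).E → e ∈ M) (hM'E : M' ⊆ G.E)
    (v : α) (hv : v ∈ X) : G.deg (M ∪ M') v = 1 := by
  have h1 := hM.2 v (mem_insert_of_mem hv)
  rw [← h1]
  unfold Gr.deg
  congr 1
  ext e
  rw [mem_filter, mem_filter, GPM_old G X w v hw hv, mem_union]
  constructor
  · rintro ⟨h2, h3⟩
    refine ⟨?_, h3⟩
    rcases h2 with h2 | h2
    · exact h2
    · refine hM' e h2 ?_
      rw [GPM_memE]
      refine ⟨hM'E h2, ?_⟩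
      rcases h3 with h3 | h3
      · left; rw [h3]; exact hv
      · right; rw [h3]; exact hv
  · rintro ⟨h2, h3⟩
    exact ⟨Or.inl h2, h3⟩

theorem glue_pm (G : Gr α β) (hG : G.Ok) (X : Finset α) (hX : X ⊆ G.V)
    (w1 w2 : α) (hw1 : w1 ∈ G.V \ X) (hw2 : w2 ∈ X) (M1 M2 : Finset β)
    (hM1 : (G.con X w1).PM M1) (hM2 : (G.con (G.V \ X) w2).PM M2)
    (f : β) (hf : f ∈ G.cut X) (hf1 : f ∈ M1) (hf2 : f ∈ M2) :
    G.PM (M1 ∪ M2) ∧ (M1 ∪ M2) ∩ G.cut X = {f} ∧ (M1 ∪ M2) ∩ (G.con X w1).E = M1 ∧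
      (M1 ∪ M2) ∩ (G.con (G.V \ X) w2).E = M2 := by
  have hw1' : w1 ∉ X := (mem_sdiff.1 hw1).2
  have hw2' : w2 ∉ G.V \ X := fun h => (mem_sdiff.1 h).2 hw2
  have s1 := GPM_side G X w1 hw1' M1 hM1 f hf hf1
  have s2 := GPM_side G (G.V \ X) w2 hw2' M2 hM2 f (by rw [G.cut_compl hG]; exact hf) hf2
  rw [G.cut_compl hG] at s2
  have hboth : ∀ e, e ∈ (G.con X w1).E → e ∈ (G.con (G.V \ X) w2).E → e ∈ G.cut X := by
    intro e h1 h2
    rw [GPM_memE] at h1 h2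
    rw [GPM_memcut]
    refine ⟨h1.1, ?_⟩
    simp only [mem_sdiff] at h2
    tauto
  have m1E : M1 ⊆ G.E := fun e he => ((GPM_memE G X w1 e).1 (hM1.1 he)).1
  have m2E : M2 ⊆ G.E := fun e he => ((GPM_memE G (G.V \ X) w2 e).1 (hM2.1 he)).1
  have c12 : ∀ e ∈ M2, e ∈ (G.con X w1).E → e ∈ M1 := by
    intro e he h1
    rw [s2 e he (hboth e h1 (hM2.1 he))]
    exact hf1
  have c21 : ∀ e ∈ M1, e ∈ (G.con (G.V \ X) w2).E → e ∈ M2 := by
    intro e he h1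
    rw [s1 e he (hboth e (hM1.1 he) h1)]
    exact hf2
  refine ⟨⟨union_subset m1E m2E, ?_⟩, ?_, ?_, ?_⟩
  · intro v hv
    by_cases hvX : v ∈ X
    · exact GPM_deg G X w1 hw1' M1 M2 hM1 c12 m2E v hvX
    · rw [union_comm]
      exact GPM_deg G (G.V \ X) w2 hw2' M2 M1 hM2 c21 m1E v (mem_sdiff.2 ⟨hv, hvX⟩)
  · ext e
    rw [mem_inter, mem_union, mem_singleton]
    constructor
    · rintro ⟨h1 | h1, h2⟩
      · exact s1 e h1 h2
      · exact s2 e h1 h2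
    · rintro rfl
      exact ⟨Or.inl hf1, hf⟩
  · ext e
    rw [mem_inter, mem_union]
    constructor
    · rintro ⟨h1 | h1, h2⟩
      · exact h1
      · exact c12 e h1 h2
    · intro h1
      exact ⟨Or.inl h1, hM1.1 h1⟩
  · ext e
    rw [mem_inter, mem_union]
    constructor
    · rintro ⟨h1 | h1, h2⟩
      · exact c21 e h1 h2
      · exact h1
    · intro h1
      exact ⟨Or.inr h1, hM2.1 h1⟩

end Helper432.F5
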