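import Pool.Agent.H432R2.F5.Defs

/-! LE: an edge at `a` other than `ea` (helper844). -/

namespace Helper432.F5

open Finset

variable {α β : Type} [DecidableEq α] [DecidableEq β]

theorem le_join_inc (G : Gr α β) {e : β} {u v a : α} (hJ : G.J e u v) (h1 : a ≠ u) (h2 : a ≠ v)
    (hinc : G.h e = a ∨ G.t e = a) : False := by
  unfold Gr.J at hJ
  rcases hJ with ⟨h3, h4⟩ | ⟨h3, h4⟩ <;> rcases hinc with h5 | h5
  · exact h1 (h5.symm.trans h3)
  · exact h2 (h5.symm.trans h4)
  · exact h2 (h5.symm.trans h3)
  · exact h1 (h5.symm.trans h4)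

theorem lift_notin (G : Gr α β) (hG : G.Ok) (F : Finset β) (a x y b x' b' : α)
    (ea em ex eb eb' : β) (hR : G.Red F a x y b x' b' ea em ex eb eb')
    (e : β) (he : e ∈ G.E) (hea : e ≠ ea) (hinc : G.h e = a ∨ G.t e = a) :
    e ∈ (G.red a x y b x' b' ea em ex eb eb').E ∧
    ∀ M, (G.red a x y b x' b' ea em ex eb eb').PM M → e ∈ M → ea ∉ M := by
  have hv := hR.vnd
  simp only [List.nodup_cons, List.mem_cons, List.not_mem_nil, or_false, not_or,
    not_false_eq_true, List.nodup_nil, and_true] at hv
  obtain ⟨⟨ax, ay, ab, ax', ab'⟩, -⟩ := hv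
  have hn := hR.end_
  simp only [List.nodup_cons, List.mem_cons, List.not_mem_nil, or_false, not_or,
    not_false_eq_true, List.nodup_nil, and_true] at hn
  obtain ⟨⟨-, eaex, -, -⟩, -⟩ := hn
  have hem : e ≠ em := by
    rintro rfl
    exact le_join_inc G hR.Jm ax ay hinc
  have hex : e ≠ ex := by
    rintro rfl
    exact le_join_inc G hR.Jx ax ax' hinc
  have heb : e ≠ eb := by
    rintro rfl
    exact le_join_inc G hR.Jb ay ab hinc
  have heb' : e ≠ eb' := by
    rintro rfl
    exact le_join_inc G hR.Jb' ay ab' hinc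
  refine ⟨?_, fun M hM heM heaM => ?_⟩
  · unfold Gr.red
    simp only [Finset.mem_sdiff, Finset.mem_insert, Finset.mem_singleton, not_or]
    exact ⟨he, hem, heb, heb'⟩
  · have haV : a ∈ (G.red a x y b x' b' ea em ex eb eb').V := by
      unfold Gr.red
      simp only [Finset.mem_sdiff, Finset.mem_insert, Finset.mem_singleton, not_or]
      exact ⟨hR.va, ax, ay⟩
    have hd := hM.2 a haV
    unfold Gr.deg at hd
    have h1 : e ∈ M.filter (fun e => (G.red a x y b x' b' ea em ex eb eb').h e = a ∨
        (G.red a x y b x' b' ea em ex eb eb').t e = a) := by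
      rw [Finset.mem_filter]
      refine ⟨heM, ?_⟩
      unfold Gr.red
      simp only []
      rw [Function.update_of_ne hex, Function.update_of_ne hea, Function.update_of_ne hex,
        Function.update_of_ne hea]
      exact hinc
    have h2 : ea ∈ M.filter (fun e => (G.red a x y b x' b' ea em ex eb eb').h e = a ∨
        (G.red a x y b x' b' ea em ex eb eb').t e = a) := by
      rw [Finset.mem_filter]
      refine ⟨heaM, Or.inl ?_⟩
      unfold Gr.red
      simp only []
      rw [Function.update_of_ne eaex, Function.update_self]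
    obtain ⟨z, hz⟩ := Finset.card_eq_one.1 hd
    rw [hz, Finset.mem_singleton] at h1 h2
    exact hea (h1.trans h2.symm)

end Helper432.F5
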