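import Pool.Agent.H432R2.F5.Defs

namespace Helper432.F5

open Finset

variable {α β : Type} [DecidableEq α] [DecidableEq β]

theorem LGD_cut (G : Gr α β) (e : β) (he : e ∈ G.E) (u w : α) (h : G.J e u w) (X : Finset α)
    (hc : e ∉ G.cut X) : u ∈ X ↔ w ∈ X := by
  unfold Gr.cut at hc
  rw [Finset.mem_filter, not_and] at hc
  have h1 := hc he
  rcases h with ⟨h2, h3⟩ | ⟨h2, h3⟩ <;> rw [h2, h3] at h1 <;> tauto

theorem lift_good (G : Gr α β) (hG : G.Ok) (F : Finset β) (a x y b x' b' : α)
    (ea em ex eb eb' : β) (hR : G.Red F a x y b x' b' ea em ex eb eb')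
    (M : Finset β) (hM : (G.red a x y b x' b' ea em ex eb eb').PM M) (hea : ea ∉ M)
    (hgood : (G.red a x y b x' b' ea em ex eb eb').Good (F \ {em, eb, eb'}) M) :
    G.Good F (if ex ∈ M then insert eb' M else insert em M) := by
  have hn := hR.end_
  have hvn := hR.vnd
  simp only [List.nodup_cons, List.mem_cons, List.not_mem_nil, or_false, not_or,
    not_false_eq_true, List.nodup_nil, and_true] at hn hvn
  obtain ⟨⟨n1, n2, n3, n4⟩, ⟨n5, n6, n7⟩, ⟨n8, n9⟩, n10⟩ := hn
  obtain ⟨⟨m1, m2, m3, m4, m5⟩, ⟨m6, m7, m8, m9⟩, ⟨m10, m11, m12⟩, ⟨m13, m14⟩, m15⟩ := hvn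
  have hME : ∀ e ∈ M, e ∈ G.E ∧ e ≠ em ∧ e ≠ eb ∧ e ≠ eb' := by
    intro e he
    have h1 := hM.1 he
    change e ∈ G.E \ {em, eb, eb'} at h1
    simp only [Finset.mem_sdiff, Finset.mem_insert, Finset.mem_singleton, not_or] at h1
    exact h1
  have hemM : em ∉ M := fun h => (hME em h).2.1 rfl
  have hebM : eb ∉ M := fun h => (hME eb h).2.2.1 rfl
  have heb'M : eb' ∉ M := fun h => (hME eb' h).2.2.2 rfl
  intro X hX hcut
  obtain ⟨Mh, hMh⟩ : ∃ Mh, Mh = (if ex ∈ M then insert eb' M else insert em M) := ⟨_, rfl⟩
  rw [← hMh] at hcut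
  have hMh1 : ∀ e, e ≠ em → e ≠ eb' → (e ∈ Mh ↔ e ∈ M) := by
    intro e h1 h2
    rw [hMh]
    split_ifs
    · simp [h2]
    · simp [h1]
  have hxy : x ∈ X ↔ y ∈ X := by
    apply LGD_cut G em hR.Em x y hR.Jm
    intro h
    exact hR.mF (Finset.mem_inter.mp (hcut h)).1
  have hax : a ∈ X ↔ x ∈ X := by
    apply LGD_cut G ea hR.Ea a x hR.Ja
    intro h
    exact hea ((hMh1 ea n1 n4).mp (Finset.mem_inter.mp (hcut h)).2)
  have hyb : y ∈ X ↔ b ∈ X := by
    apply LGD_cut G eb hR.Eb y b hR.Jb
    intro h
    exact hebM ((hMh1 eb (Ne.symm n6) n10).mp (Finset.mem_inter.mp (hcut h)).2)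
  have hmem : ∀ u, u ≠ x → u ≠ y → (u ∈ X \ {x, y} ↔ u ∈ X) := by
    intro u h1 h2
    simp [h1, h2]
  have key := hgood (X \ {x, y}) (by
    show X \ {x, y} ⊆ G.V \ {x, y}
    exact Finset.sdiff_subset_sdiff hX (Finset.Subset.refl _)) (by
    intro e he
    unfold Gr.cut at he
    rw [Finset.mem_filter] at he
    obtain ⟨heE, hec⟩ := he
    change e ∈ G.E \ {em, eb, eb'} at heE
    simp only [Finset.mem_sdiff, Finset.mem_insert, Finset.mem_singleton, not_or] at heE
    obtain ⟨heE, k1, k2, k3⟩ := heE
    by_cases c1 : e = ea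
    · exfalso
      rw [c1] at hec
      have r1 : (G.red a x y b x' b' ea em ex eb eb').h ea = a := by
        unfold Gr.red
        simp only [Function.update_of_ne n2, Function.update_self]
      have r2 : (G.red a x y b x' b' ea em ex eb eb').t ea = b := by
        unfold Gr.red
        simp only [Function.update_of_ne n2, Function.update_self]
      rw [r1, r2, hmem a m1 m2, hmem b (Ne.symm m7) (Ne.symm m10)] at hec
      tauto
    · by_cases c2 : e = ex
      · rw [c2] at hec ⊢
        have r3 : (G.red a x y b x' b' ea em ex eb eb').h ex = x' := by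
          unfold Gr.red
          simp only [Function.update_self]
        have r4 : (G.red a x y b x' b' ea em ex eb eb').t ex = b' := by
          unfold Gr.red
          simp only [Function.update_self]
        rw [r3, r4, hmem x' (Ne.symm m8) (Ne.symm m11), hmem b' (Ne.symm m9) (Ne.symm m12)] at hec
        have hex : ex ∈ M := by
          by_contra hc
          have h1 : x ∈ X ↔ x' ∈ X := by
            apply LGD_cut G ex hR.Ex x x' hR.Jx
            intro h
            exact hc ((hMh1 ex (Ne.symm n5) n9).mp (Finset.mem_inter.mp (hcut h)).2)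
          have h2 : y ∈ X ↔ b' ∈ X := by
            apply LGD_cut G eb' hR.Eb' y b' hR.Jb'
            intro h
            have h3 := (Finset.mem_inter.mp (hcut h)).2
            rw [hMh, if_neg hc, Finset.mem_insert] at h3
            rcases h3 with h3 | h3
            · exact n7 h3.symm
            · exact heb'M h3
          tauto
        have hexF : ex ∈ F := by
          by_contra hc
          have h1 : x ∈ X ↔ x' ∈ X := by
            apply LGD_cut G ex hR.Ex x x' hR.Jx
            intro h
            exact hc (Finset.mem_inter.mp (hcut h)).1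
          have h2 : y ∈ X ↔ b' ∈ X := by
            apply LGD_cut G eb' hR.Eb' y b' hR.Jb'
            intro h
            exact hc (hR.xbF.mpr (Finset.mem_inter.mp (hcut h)).1)
          tauto
        simp only [Finset.mem_inter, Finset.mem_sdiff, Finset.mem_insert, Finset.mem_singleton,
          not_or]
        exact ⟨⟨hexF, Ne.symm n5, n8, n9⟩, hex⟩
      · have r5 : (G.red a x y b x' b' ea em ex eb eb').h e = G.h e := by
          unfold Gr.red
          simp only [Function.update_of_ne c1, Function.update_of_ne c2]
        have r6 : (G.red a x y b x' b' ea em ex eb eb').t e = G.t e := by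
          unfold Gr.red
          simp only [Function.update_of_ne c1, Function.update_of_ne c2]
        have i1 : ¬ (G.h e = x ∨ G.t e = x) := by
          intro h
          rcases hR.incx e heE h with h | h | h
          · exact c1 h
          · exact k1 h
          · exact c2 h
        have i2 : ¬ (G.h e = y ∨ G.t e = y) := by
          intro h
          rcases hR.incy e heE h with h | h | h
          · exact k1 h
          · exact k2 h
          · exact k3 h
        rw [not_or] at i1 i2
        rw [r5, r6, hmem _ i1.1 i2.1, hmem _ i1.2 i2.2] at hec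
        have h1 : e ∈ G.cut X := by
          unfold Gr.cut
          rw [Finset.mem_filter]
          exact ⟨heE, hec⟩
        have h2 := Finset.mem_inter.mp (hcut h1)
        simp only [Finset.mem_inter, Finset.mem_sdiff, Finset.mem_insert, Finset.mem_singleton,
          not_or]
        exact ⟨⟨h2.1, k1, k2, k3⟩, (hMh1 e k1 k3).mp h2.2⟩)
  by_cases hx : x ∈ X
  · have hy : y ∈ X := hxy.mp hx
    have h1 : ({x, y} : Finset α) ⊆ X := by
      intro z hz
      simp only [Finset.mem_insert, Finset.mem_singleton] at hz
      rcases hz with rfl | rfl <;> assumption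
    have h2 := Finset.card_sdiff_add_card_eq_card h1
    rw [Finset.card_pair m6] at h2
    rw [← h2]
    exact key.add (by decide)
  · have hy : y ∉ X := fun h => hx (hxy.mpr h)
    have h1 : X \ {x, y} = X := by
      apply Finset.sdiff_eq_self_of_disjoint
      rw [Finset.disjoint_right]
      intro z hz
      simp only [Finset.mem_insert, Finset.mem_singleton] at hz
      rcases hz with rfl | rfl <;> assumption
    rw [h1] at key
    exact key

end Helper432.F5
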