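import Pool.Agent.H432R2.F5.Defs

namespace Helper432.F5

open Finset

variable {α β : Type} [DecidableEq α] [DecidableEq β]

theorem lpm_deg_one (G : Gr α β) (A : Finset β) (v : α) :
    G.deg A v = 1 ↔ ∃ e ∈ A, (G.h e = v ∨ G.t e = v) ∧
      ∀ f ∈ A, (G.h f = v ∨ G.t f = v) → f = e := by
  unfold Gr.deg
  rw [Finset.card_eq_one]
  constructor
  · rintro ⟨e, he⟩
    have h1 : e ∈ A.filter (fun e => G.h e = v ∨ G.t e = v) := by rw [he]; simp
    rw [Finset.mem_filter] at h1
    refine ⟨e, h1.1, h1.2, fun f hf hfv => ?_⟩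
    have h2 : f ∈ A.filter (fun e => G.h e = v ∨ G.t e = v) := Finset.mem_filter.2 ⟨hf, hfv⟩
    rw [he] at h2
    simpa using h2
  · rintro ⟨e, he, hev, hu⟩
    refine ⟨e, ?_⟩
    ext f
    rw [Finset.mem_filter, Finset.mem_singleton]
    constructor
    · rintro ⟨h1, h2⟩
      exact hu f h1 h2
    · rintro rfl
      exact ⟨he, hev⟩

theorem lift_pm (G : Gr α β) (hG : G.Ok) (F : Finset β) (a x y b x' b' : α)
    (ea em ex eb eb' : β) (hR : G.Red F a x y b x' b' ea em ex eb eb')
    (M : Finset β) (hM : (G.red a x y b x' b' ea em ex eb eb').PM M) (hea : ea ∉ M) :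
    G.PM (if ex ∈ M then insert eb' M else insert em M) := by
  obtain ⟨hME, hMd⟩ := hM
  have hME' : ∀ e ∈ M, e ∈ G.E ∧ e ≠ em ∧ e ≠ eb ∧ e ≠ eb' := by
    intro e he
    have h1 := hME he
    simp only [Gr.red, Finset.mem_sdiff, Finset.mem_insert, Finset.mem_singleton, not_or] at h1
    exact h1
  have hvnd := hR.vnd
  have hend := hR.end_
  simp only [List.nodup_cons, List.mem_cons, not_or, List.not_mem_nil, not_false_eq_true,
    List.nodup_nil, and_true] at hvnd hend
  obtain ⟨⟨hax, hay, hab, hax', hab'⟩, ⟨hxy, hxb, hxx', hxb'⟩, ⟨hyb, hyx', hyb'⟩, ⟨hbx', hbb'⟩,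
    hx'b'⟩ := hvnd
  obtain ⟨⟨n1, n2, n3, n4⟩, ⟨n5, n6, n7⟩, ⟨n8, n9⟩, n10⟩ := hend
  -- incidence of the special edges in `G`
  have im : ∀ v, (G.h em = v ∨ G.t em = v) ↔ (v = x ∨ v = y) := by
    intro v
    rcases hR.Jm with ⟨h1, h2⟩ | ⟨h1, h2⟩ <;> rw [h1, h2] <;> constructor <;>
      rintro (h | h) <;> simp [h]
  have ib' : ∀ v, (G.h eb' = v ∨ G.t eb' = v) ↔ (v = y ∨ v = b') := by
    intro v
    rcases hR.Jb' with ⟨h1, h2⟩ | ⟨h1, h2⟩ <;> rw [h1, h2] <;> constructor <;>
      rintro (h | h) <;> simp [h]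
  have ix : ∀ v, (G.h ex = v ∨ G.t ex = v) ↔ (v = x ∨ v = x') := by
    intro v
    rcases hR.Jx with ⟨h1, h2⟩ | ⟨h1, h2⟩ <;> rw [h1, h2] <;> constructor <;>
      rintro (h | h) <;> simp [h]
  -- incidence in the reduced graph
  have rx : ∀ v, (((G.red a x y b x' b' ea em ex eb eb').h ex = v) ∨
      ((G.red a x y b x' b' ea em ex eb eb').t ex = v)) ↔ (v = x' ∨ v = b') := by
    intro v
    simp only [Gr.red, Function.update_self]
    constructor <;> rintro (h | h) <;> simp [h]
  have ro : ∀ e ∈ M, e ≠ ex → ∀ v, (((G.red a x y b x' b' ea em ex eb eb').h e = v) ∨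
      ((G.red a x y b x' b' ea em ex eb eb').t e = v)) ↔ (G.h e = v ∨ G.t e = v) := by
    intro e he hne v
    have h1 : e ≠ ea := fun h => hea (h ▸ he)
    simp only [Gr.red]
    rw [Function.update_of_ne hne, Function.update_of_ne h1, Function.update_of_ne hne,
      Function.update_of_ne h1]
  have hV' : ∀ v ∈ G.V, v ≠ x → v ≠ y → v ∈ (G.red a x y b x' b' ea em ex eb eb').V := by
    intro v hv h1 h2
    simp only [Gr.red, Finset.mem_sdiff, Finset.mem_insert, Finset.mem_singleton, not_or]
    exact ⟨hv, h1, h2⟩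
  by_cases hx : ex ∈ M
  · rw [if_pos hx]
    refine ⟨?_, fun v hv => ?_⟩
    · intro e he
      rcases Finset.mem_insert.1 he with rfl | h
      · exact hR.Eb'
      · exact (hME' e h).1
    rw [lpm_deg_one]
    by_cases hvx : v = x
    · subst hvx
      refine ⟨ex, Finset.mem_insert_of_mem hx, (ix v).2 (Or.inl rfl), fun f hf hfv => ?_⟩
      rcases Finset.mem_insert.1 hf with rfl | h
      · rcases (ib' v).1 hfv with h | h
        · exact absurd h hxy
        · exact absurd h hxb'
      · obtain ⟨h1, h2, h3, h4⟩ := hME' f h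
        rcases hR.incx f h1 hfv with h5 | h5 | h5
        · exact absurd (h5 ▸ h) hea
        · exact absurd h5 h2
        · exact h5
    by_cases hvy : v = y
    · subst hvy
      refine ⟨eb', Finset.mem_insert_self _ _, (ib' v).2 (Or.inl rfl), fun f hf hfv => ?_⟩
      rcases Finset.mem_insert.1 hf with rfl | h
      · rfl
      · obtain ⟨h1, h2, h3, h4⟩ := hME' f h
        rcases hR.incy f h1 hfv with h5 | h5 | h5
        · exact absurd h5 h2
        · exact absurd h5 h3
        · exact h5
    obtain ⟨e, heM, hev, hu⟩ := (lpm_deg_one _ _ _).1 (hMd v (hV' v hv hvx hvy))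
    by_cases hvb : v = b'
    · subst hvb
      have hex : ex = e := hu ex hx ((rx v).2 (Or.inr rfl))
      refine ⟨eb', Finset.mem_insert_self _ _, (ib' v).2 (Or.inr rfl), fun f hf hfv => ?_⟩
      rcases Finset.mem_insert.1 hf with rfl | h
      · rfl
      · exfalso
        by_cases hfx : f = ex
        · subst hfx
          rcases (ix v).1 hfv with h6 | h6
          · exact hvx h6
          · exact hx'b' h6.symm
        · exact hfx ((hu f h ((ro f h hfx v).2 hfv)).trans hex.symm)
    · refine ⟨e, Finset.mem_insert_of_mem heM, ?_, fun f hf hfv => ?_⟩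
      · by_cases hex : e = ex
        · subst hex
          rcases (rx v).1 hev with h6 | h6
          · exact (ix v).2 (Or.inr h6)
          · exact absurd h6 hvb
        · exact (ro e heM hex v).1 hev
      · rcases Finset.mem_insert.1 hf with rfl | h
        · rcases (ib' v).1 hfv with h6 | h6
          · exact absurd h6 hvy
          · exact absurd h6 hvb
        · by_cases hfx : f = ex
          · subst hfx
            rcases (ix v).1 hfv with h6 | h6
            · exact absurd h6 hvx
            · exact hu f h ((rx v).2 (Or.inl h6))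
          · exact hu f h ((ro f h hfx v).2 hfv)
  · rw [if_neg hx]
    have hne : ∀ e ∈ M, e ≠ ex := fun e he h => hx (h ▸ he)
    refine ⟨?_, fun v hv => ?_⟩
    · intro e he
      rcases Finset.mem_insert.1 he with rfl | h
      · exact hR.Em
      · exact (hME' e h).1
    rw [lpm_deg_one]
    by_cases hvx : v = x
    · subst hvx
      refine ⟨em, Finset.mem_insert_self _ _, (im v).2 (Or.inl rfl), fun f hf hfv => ?_⟩
      rcases Finset.mem_insert.1 hf with rfl | h
      · rfl
      · obtain ⟨h1, h2, h3, h4⟩ := hME' f h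
        rcases hR.incx f h1 hfv with h5 | h5 | h5
        · exact absurd (h5 ▸ h) hea
        · exact h5
        · exact absurd h5 (hne f h)
    by_cases hvy : v = y
    · subst hvy
      refine ⟨em, Finset.mem_insert_self _ _, (im v).2 (Or.inr rfl), fun f hf hfv => ?_⟩
      rcases Finset.mem_insert.1 hf with rfl | h
      · rfl
      · obtain ⟨h1, h2, h3, h4⟩ := hME' f h
        rcases hR.incy f h1 hfv with h5 | h5 | h5
        · exact h5
        · exact absurd h5 h3
        · exact absurd h5 h4
    obtain ⟨e, heM, hev, hu⟩ := (lpm_deg_one _ _ _).1 (hMd v (hV' v hv hvx hvy))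
    refine ⟨e, Finset.mem_insert_of_mem heM, (ro e heM (hne e heM) v).1 hev, fun f hf hfv => ?_⟩
    rcases Finset.mem_insert.1 hf with rfl | h
    · rcases (im v).1 hfv with h6 | h6
      · exact absurd h6 hvx
      · exact absurd h6 hvy
    · exact hu f h ((ro f h (hne f h) v).2 hfv)

end Helper432.F5
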