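import Pool.Agent.H432R2.F5.Defs

namespace Helper432.F5

open Finset

variable {α β : Type} [DecidableEq α] [DecidableEq β]

namespace RBRaux

/-- crossing indicator of an edge joining `u` and `v` -/
def ci (X : Finset α) (u v : α) : ℕ := if (u ∈ X ∧ v ∉ X) ∨ (u ∉ X ∧ v ∈ X) then 1 else 0

theorem cut_card (G : Gr α β) (X : Finset α) :
    (G.cut X).card = ∑ e ∈ G.E, ci X (G.h e) (G.t e) := by
  unfold Gr.cut ci
  rw [Finset.card_filter]

theorem ci_J (G : Gr α β) (X : Finset α) (e : β) (u v : α) (h : G.J e u v) :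
    ci X (G.h e) (G.t e) = ci X u v := by
  unfold ci
  rcases h with ⟨h1, h2⟩ | ⟨h1, h2⟩
  · rw [h1, h2]
  · rw [h1, h2]
    by_cases hu : u ∈ X <;> by_cases hv : v ∈ X <;> simp [hu, hv]

end RBRaux

open RBRaux

theorem red_cut (G : Gr α β) (hG : G.Ok) (F : Finset β) (a x y b x' b' : α)
    (ea em ex eb eb' : β) (hR : G.Red F a x y b x' b' ea em ex eb eb')
    (X : Finset α) (hX : X ⊆ G.V \ {x, y}) :
    (G.cut X).card = ((G.red a x y b x' b' ea em ex eb eb').cut X).card
      + 2 * (if a ∈ X ∧ b ∈ X then 1 else 0) + 2 * (if x' ∈ X ∧ b' ∈ X then 1 else 0) ∧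
    (G.cut (X ∪ {x, y})).card = ((G.red a x y b x' b' ea em ex eb eb').cut X).card
      + 2 * (if a ∉ X ∧ b ∉ X then 1 else 0) + 2 * (if x' ∉ X ∧ b' ∉ X then 1 else 0) := by
  have hend := hR.end_
  have hvnd := hR.vnd
  simp only [List.nodup_cons, List.mem_cons, List.not_mem_nil, or_false, not_or, not_false_eq_true,
    and_true, List.nodup_nil] at hend hvnd
  obtain ⟨⟨d1, d2, d3, d4⟩, ⟨d5, d6, d7⟩, ⟨d8, d9⟩, d10⟩ := hend
  obtain ⟨⟨v1, v2, v3, v4, v5⟩, ⟨v6, v7, v8, v9⟩, ⟨v10, v11, v12⟩, ⟨v13, v14⟩, v15⟩ := hvnd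
  have hxX : x ∉ X := fun h => by
    have := hX h
    simp at this
  have hyX : y ∉ X := fun h => by
    have := hX h
    simp at this
  set K := G.E \ {ea, em, ex, eb, eb'} with hK
  have hE : G.E = insert ea (insert em (insert ex (insert eb (insert eb' K)))) := by
    ext e
    simp only [hK, mem_insert, mem_sdiff, mem_singleton, not_or]
    constructor
    · intro he
      by_cases h1 : e = ea
      · exact Or.inl h1
      by_cases h2 : e = em
      · exact Or.inr (Or.inl h2)
      by_cases h3 : e = ex
      · exact Or.inr (Or.inr (Or.inl h3))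
      by_cases h4 : e = eb
      · exact Or.inr (Or.inr (Or.inr (Or.inl h4)))
      by_cases h5 : e = eb'
      · exact Or.inr (Or.inr (Or.inr (Or.inr (Or.inl h5))))
      exact Or.inr (Or.inr (Or.inr (Or.inr (Or.inr ⟨he, h1, h2, h3, h4, h5⟩))))
    · rintro (h | h | h | h | h | h)
      · rw [h]; exact hR.Ea
      · rw [h]; exact hR.Em
      · rw [h]; exact hR.Ex
      · rw [h]; exact hR.Eb
      · rw [h]; exact hR.Eb'
      · exact h.1
  have hE' : (G.red a x y b x' b' ea em ex eb eb').E = insert ea (insert ex K) := by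
    change G.E \ {em, eb, eb'} = _
    ext e
    simp only [hK, mem_insert, mem_sdiff, mem_singleton, not_or]
    constructor
    · rintro ⟨he, h2, h4, h5⟩
      by_cases h1 : e = ea
      · exact Or.inl h1
      by_cases h3 : e = ex
      · exact Or.inr (Or.inl h3)
      exact Or.inr (Or.inr ⟨he, h1, h2, h3, h4, h5⟩)
    · rintro (h | h | h)
      · subst h
        exact ⟨hR.Ea, d1, d3, d4⟩
      · subst h
        exact ⟨hR.Ex, fun h => d5 h.symm, d8, d9⟩
      · exact ⟨h.1, h.2.2.1, h.2.2.2.2.1, h.2.2.2.2.2⟩
  have kn : ∀ e ∈ ({ea, em, ex, eb, eb'} : Finset β), e ∉ K := by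
    intro e he hk
    rw [hK, mem_sdiff] at hk
    exact hk.2 he
  have k1 : ea ∉ K := kn _ (by simp)
  have k2 : em ∉ K := kn _ (by simp)
  have k3 : ex ∉ K := kn _ (by simp)
  have k4 : eb ∉ K := kn _ (by simp)
  have k5 : eb' ∉ K := kn _ (by simp)
  -- the sum over G.E
  have sG : ∀ Y : Finset α, (G.cut Y).card = ci Y a x + (ci Y x y + (ci Y x x' + (ci Y y b +
      (ci Y y b' + ∑ e ∈ K, ci Y (G.h e) (G.t e))))) := by
    intro Y
    rw [cut_card, hE, sum_insert, sum_insert, sum_insert, sum_insert, sum_insert,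
      ci_J G Y ea a x hR.Ja, ci_J G Y em x y hR.Jm, ci_J G Y ex x x' hR.Jx,
      ci_J G Y eb y b hR.Jb, ci_J G Y eb' y b' hR.Jb']
    · exact k5
    · simp only [mem_insert, not_or]; exact ⟨d10, k4⟩
    · simp only [mem_insert, not_or]; exact ⟨d8, d9, k3⟩
    · simp only [mem_insert, not_or]; exact ⟨d5, d6, d7, k2⟩
    · simp only [mem_insert, not_or]; exact ⟨d1, d2, d3, d4, k1⟩
  have sR : ((G.red a x y b x' b' ea em ex eb eb').cut X).card = ci X a b + (ci X x' b' +
      ∑ e ∈ K, ci X (G.h e) (G.t e)) := by
    rw [cut_card, hE', sum_insert, sum_insert]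
    · congr 1
      · have e1 : (G.red a x y b x' b' ea em ex eb eb').h ea = a := by
          change Function.update (Function.update G.h ea a) ex x' ea = a
          rw [Function.update_of_ne d2, Function.update_self]
        have e2 : (G.red a x y b x' b' ea em ex eb eb').t ea = b := by
          change Function.update (Function.update G.t ea b) ex b' ea = b
          rw [Function.update_of_ne d2, Function.update_self]
        rw [e1, e2]
      · congr 1
        · have e1 : (G.red a x y b x' b' ea em ex eb eb').h ex = x' := by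
            change Function.update (Function.update G.h ea a) ex x' ex = x'
            rw [Function.update_self]
          have e2 : (G.red a x y b x' b' ea em ex eb eb').t ex = b' := by
            change Function.update (Function.update G.t ea b) ex b' ex = b'
            rw [Function.update_self]
          rw [e1, e2]
        · refine sum_congr rfl fun e he => ?_
          have n1 : e ≠ ea := fun h => k1 (h ▸ he)
          have n3 : e ≠ ex := fun h => k3 (h ▸ he)
          have e1 : (G.red a x y b x' b' ea em ex eb eb').h e = G.h e := by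
            change Function.update (Function.update G.h ea a) ex x' e = _
            rw [Function.update_of_ne n3, Function.update_of_ne n1]
          have e2 : (G.red a x y b x' b' ea em ex eb eb').t e = G.t e := by
            change Function.update (Function.update G.t ea b) ex b' e = _
            rw [Function.update_of_ne n3, Function.update_of_ne n1]
          rw [e1, e2]
    · exact k3
    · simp only [mem_insert, not_or]; exact ⟨d2, k1⟩
  have sK : ∑ e ∈ K, ci (X ∪ {x, y}) (G.h e) (G.t e) = ∑ e ∈ K, ci X (G.h e) (G.t e) := by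
    refine sum_congr rfl fun e he => ?_
    have n1 : e ≠ ea := fun h => k1 (h ▸ he)
    have n2 : e ≠ em := fun h => k2 (h ▸ he)
    have n3 : e ≠ ex := fun h => k3 (h ▸ he)
    have n4 : e ≠ eb := fun h => k4 (h ▸ he)
    have n5 : e ≠ eb' := fun h => k5 (h ▸ he)
    have heE : e ∈ G.E := (mem_sdiff.1 he).1
    have hx : G.h e ≠ x ∧ G.t e ≠ x := by
      refine ⟨fun h => ?_, fun h => ?_⟩
      · rcases hR.incx e heE (Or.inl h) with h | h | h <;> contradiction
      · rcases hR.incx e heE (Or.inr h) with h | h | h <;> contradiction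
    have hy : G.h e ≠ y ∧ G.t e ≠ y := by
      refine ⟨fun h => ?_, fun h => ?_⟩
      · rcases hR.incy e heE (Or.inl h) with h | h | h <;> contradiction
      · rcases hR.incy e heE (Or.inr h) with h | h | h <;> contradiction
    unfold ci
    simp only [mem_union, mem_insert, mem_singleton, hx.1, hx.2, hy.1, hy.2, or_false]
  have sY := sG (X ∪ {x, y})
  rw [sK] at sY
  have sX := sG X
  rw [sX, sY, sR]
  generalize ∑ e ∈ K, ci X (G.h e) (G.t e) = S
  unfold ci
  simp only [mem_union, mem_insert, mem_singleton, hxX, hyX, v1, v2, v6, true_or, or_true, or_false,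
    false_or, Ne.symm v1, Ne.symm v2]
  have w1 : x' ≠ x := fun h => v8 h.symm
  have w2 : x' ≠ y := fun h => v11 h.symm
  have w3 : b ≠ x := fun h => v7 h.symm
  have w4 : b ≠ y := fun h => v10 h.symm
  have w5 : b' ≠ x := fun h => v9 h.symm
  have w6 : b' ≠ y := fun h => v12 h.symm
  simp only [w1, w2, w3, w4, w5, w6, or_false]
  by_cases ha : a ∈ X <;> by_cases hb : b ∈ X <;> by_cases hx' : x' ∈ X <;>
    by_cases hb' : b' ∈ X <;> simp [ha, hb, hx', hb'] <;> omega

end Helper432.F5
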