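import Pool.Agent.H432R2.F5.Defs

namespace Helper432.F5

open Finset

variable {α β : Type} [DecidableEq α] [DecidableEq β]

theorem RCT_other (G : Gr α β) (F : Finset β) (a x y b x' b' : α)
    (ea em ex eb eb' : β) (hR : G.Red F a x y b x' b' ea em ex eb eb')
    (e : β) (he : e ∈ G.E) (h1 : e ≠ ea) (h2 : e ≠ em) (h3 : e ≠ ex) (h4 : e ≠ eb) (h5 : e ≠ eb') :
    G.h e ≠ x ∧ G.h e ≠ y ∧ G.t e ≠ x ∧ G.t e ≠ y := by
  refine ⟨?_, ?_, ?_, ?_⟩
  · intro h
    rcases hR.incx e he (Or.inl h) with h | h | h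
    · exact h1 h
    · exact h2 h
    · exact h3 h
  · intro h
    rcases hR.incy e he (Or.inl h) with h | h | h
    · exact h2 h
    · exact h4 h
    · exact h5 h
  · intro h
    rcases hR.incx e he (Or.inr h) with h | h | h
    · exact h1 h
    · exact h2 h
    · exact h3 h
  · intro h
    rcases hR.incy e he (Or.inr h) with h | h | h
    · exact h2 h
    · exact h4 h
    · exact h5 h

theorem red_cert (G : Gr α β) (hG : G.Ok) (F : Finset β) (a x y b x' b' : α)
    (ea em ex eb eb' : β) (hR : G.Red F a x y b x' b' ea em ex eb eb')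
    (P : Finset α) (hPV : P ⊆ G.V) (hP : G.Cert F P) :
    ∃ P' ⊆ (G.red a x y b x' b' ea em ex eb eb').V, P'.card ≤ P.card ∧
      (G.red a x y b x' b' ea em ex eb eb').Cert (F \ {em, eb, eb'}) P' := by
  have hnd := hR.vnd
  have hed := hR.end_
  simp only [List.nodup_cons, List.mem_cons, List.not_mem_nil, or_false, not_or, not_false_eq_true,
    List.nodup_nil, and_true] at hnd hed
  obtain ⟨⟨nax, nay, nab, nax', nab'⟩, ⟨nxy, nxb, nxx', nxb'⟩, ⟨nyb, nyx', nyb'⟩, ⟨nbx', nbb'⟩, nx'b'⟩ := hnd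
  obtain ⟨⟨eam, eax, eab, eab'⟩, ⟨emx, emb, emb'⟩, ⟨exb, exb'⟩, ebb'⟩ := hed
  have hw : ∃ w, w ∈ G.V ∧ w ≠ x ∧ w ≠ y ∧ (ea ∈ F → w = x') ∧ (ea ∉ F → w = a) := by
    by_cases h : ea ∈ F
    · exact ⟨x', hR.vx', Ne.symm nxx', Ne.symm nyx', fun _ => rfl, fun h' => absurd h h'⟩
    · exact ⟨a, hR.va, nax, nay, fun h' => absurd h' h, fun _ => rfl⟩
  obtain ⟨w, wV, wx, wy, w1, w2⟩ := hw
  have hP'ex : ∃ P' ⊆ G.V \ {x, y}, P'.card ≤ P.card ∧ (x ∈ P ∨ y ∈ P → w ∈ P') ∧
      (∀ z ∈ P, z ≠ x → z ≠ y → z ∈ P') := by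
    by_cases h : x ∈ P ∨ y ∈ P
    · refine ⟨insert w (P \ {x, y}), ?_, ?_, ?_, ?_⟩
      · intro z hz
        rw [Finset.mem_insert] at hz
        rcases hz with hz | hz
        · rw [hz]; simp [wV, wx, wy]
        · rw [Finset.mem_sdiff] at hz ⊢
          exact ⟨hPV hz.1, hz.2⟩
      · have h1 : (insert w (P \ {x, y})).card ≤ (P \ {x, y}).card + 1 := Finset.card_insert_le _ _
        have h2 : (P \ {x, y}).card < P.card := by
          apply Finset.card_lt_card
          rw [Finset.ssubset_iff_of_subset Finset.sdiff_subset]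
          rcases h with h | h
          · exact ⟨x, h, by simp⟩
          · exact ⟨y, h, by simp⟩
        omega
      · intro _; exact Finset.mem_insert_self _ _
      · intro z hz h1 h2
        apply Finset.mem_insert_of_mem
        simp [hz, h1, h2]
    · refine ⟨P, ?_, le_refl _, fun h' => absurd h' h, fun z hz _ _ => hz⟩
      intro z hz
      rw [not_or] at h
      have hzx : z ≠ x := fun h' => h.1 (h' ▸ hz)
      have hzy : z ≠ y := fun h' => h.2 (h' ▸ hz)
      simp [hPV hz, hzx, hzy]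
  obtain ⟨P', hP'V, hP'c, hP'w, hP'z⟩ := hP'ex
  refine ⟨P', hP'V, hP'c, ?_⟩
  intro Z hZ hcl hdis
  have hZ' : Z ⊆ G.V \ {x, y} := hZ
  have hxZ : x ∉ Z := fun h => by have := hZ' h; simp at this
  have hyZ : y ∉ Z := fun h => by have := hZ' h; simp at this
  have hdis' : ∀ z ∈ Z, z ∉ P' := fun z hz hz' => (Finset.disjoint_left.mp hdis) hz hz'
  -- closedness
  have hclE : ∀ e ∈ G.E, e ≠ em → e ≠ eb → e ≠ eb' → e ∉ F →
      (Function.update (Function.update G.h ea a) ex x' e ∈ Z ↔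
        Function.update (Function.update G.t ea b) ex b' e ∈ Z) := by
    intro e he h1 h2 h3 h4
    exact hcl e (by simp [Gr.red, he, h1, h2, h3]) (by simp [h4])
  have hcl_ea : ea ∉ F → (a ∈ Z ↔ b ∈ Z) := by
    intro h
    have := hclE ea hR.Ea eam eab eab' h
    rw [Function.update_of_ne eax, Function.update_self, Function.update_of_ne eax,
      Function.update_self] at this
    exact this
  have hcl_ex : ex ∉ F → (x' ∈ Z ↔ b' ∈ Z) := by
    intro h
    have := hclE ex hR.Ex (Ne.symm emx) exb exb' h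
    rw [Function.update_self, Function.update_self] at this
    exact this
  have hcl_o : ∀ e ∈ G.E, e ≠ ea → e ≠ em → e ≠ ex → e ≠ eb → e ≠ eb' → e ∉ F →
      (G.h e ∈ Z ↔ G.t e ∈ Z) := by
    intro e he h1 h2 h3 h4 h5 h6
    have := hclE e he h2 h4 h5 h6
    rw [Function.update_of_ne h3, Function.update_of_ne h1, Function.update_of_ne h3,
      Function.update_of_ne h1] at this
    exact this
  -- the set Zh
  have hZh : ∃ Zh ⊆ G.V, (Even Zh.card → Even Z.card) ∧ (x ∈ Zh ↔ w ∈ Z) ∧ (y ∈ Zh ↔ w ∈ Z) ∧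
      (∀ z, z ≠ x → z ≠ y → (z ∈ Zh ↔ z ∈ Z)) := by
    by_cases h : w ∈ Z
    · refine ⟨insert x (insert y Z), ?_, ?_, ?_, ?_, ?_⟩
      · intro z hz
        simp only [Finset.mem_insert] at hz
        rcases hz with hz | hz | hz
        · rw [hz]; exact hR.vx
        · rw [hz]; exact hR.vy
        · exact (Finset.mem_sdiff.mp (hZ' hz)).1
      · intro he
        rw [Finset.card_insert_of_notMem (by simp [nxy, hxZ]), Finset.card_insert_of_notMem hyZ] at he
        rw [Nat.even_iff] at he ⊢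
        omega
      · simp [h]
      · simp [h]
      · intro z h1 h2
        simp [h1, h2]
    · refine ⟨Z, hZ'.trans Finset.sdiff_subset, fun h => h, ?_, ?_, fun _ _ _ => Iff.rfl⟩
      · simp [h, hxZ]
      · simp [h, hyZ]
  obtain ⟨Zh, hZhV, hZhe, hZx, hZy, hZz⟩ := hZh
  apply hZhe
  have hJ : ∀ e u v, G.J e u v → (u ∈ Zh ↔ v ∈ Zh) → (G.h e ∈ Zh ↔ G.t e ∈ Zh) := by
    intro e u v hJ huv
    rcases hJ with ⟨h1, h2⟩ | ⟨h1, h2⟩
    · rw [h1, h2]; exact huv
    · rw [h1, h2]; exact huv.symm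
  apply hP Zh hZhV
  · intro e he heF
    by_cases e1 : e = em
    · rw [e1]
      exact hJ em x y hR.Jm (hZx.trans hZy.symm)
    by_cases e2 : e = ea
    · rw [e2] at heF ⊢
      apply hJ ea a x hR.Ja
      rw [hZx, hZz a nax nay, w2 heF]
    by_cases e3 : e = ex
    · rw [e3] at heF ⊢
      have hea : ea ∈ F := hR.one.mpr heF
      apply hJ ex x x' hR.Jx
      rw [hZx, hZz x' (Ne.symm nxx') (Ne.symm nyx'), w1 hea]
    by_cases e4 : e = eb
    · rw [e4] at heF ⊢
      have hea : ea ∉ F := fun h => heF (hR.abF.mp h)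
      apply hJ eb y b hR.Jb
      rw [hZy, hZz b (Ne.symm nxb) (Ne.symm nyb), w2 hea]
      exact hcl_ea hea
    by_cases e5 : e = eb'
    · rw [e5] at heF ⊢
      have hex : ex ∉ F := fun h => heF (hR.xbF.mp h)
      have hea : ea ∈ F := hR.one.mpr hex
      apply hJ eb' y b' hR.Jb'
      rw [hZy, hZz b' (Ne.symm nxb') (Ne.symm nyb'), w1 hea]
      exact hcl_ex hex
    · have ho := RCT_other G F a x y b x' b' ea em ex eb eb' hR e he e2 e1 e3 e4 e5
      rw [hZz _ ho.1 ho.2.1, hZz _ ho.2.2.1 ho.2.2.2]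
      exact hcl_o e he e2 e1 e3 e4 e5 heF
  · rw [Finset.disjoint_left]
    intro z hz hzP
    by_cases hzx : z = x
    · rw [hzx] at hz hzP
      exact hdis' w (hZx.mp hz) (hP'w (Or.inl hzP))
    · by_cases hzy : z = y
      · rw [hzy] at hz hzP
        exact hdis' w (hZy.mp hz) (hP'w (Or.inr hzP))
      · exact hdis' z ((hZz z hzx hzy).mp hz) (hP'z z hzP hzx hzy)

end Helper432.F5
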