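import Pool.Agent.H432R2.F5.Defs

namespace Helper432.F5

open Finset

variable {α β : Type} [DecidableEq α] [DecidableEq β]

private theorem RED_symm {G : Gr α β} {e : β} {u v : α} (h : G.J e u v) : G.J e v u := by
  rcases h with h | h
  · exact Or.inr ⟨h.1, h.2⟩
  · exact Or.inl ⟨h.1, h.2⟩

private theorem RED_inc {G : Gr α β} {e : β} {u v : α} (h : G.J e u v) :
    G.h e = u ∨ G.t e = u := by
  rcases h with h | h
  · exact Or.inl h.1
  · exact Or.inr h.2

private theorem RED_two {G : Gr α β} {e : β} {u v w : α} (h : G.J e u v)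
    (hw : G.h e = w ∨ G.t e = w) : w = u ∨ w = v := by
  rcases h with h | h
  · rcases hw with hw | hw
    · exact Or.inl (hw.symm.trans h.1)
    · exact Or.inr (hw.symm.trans h.2)
  · rcases hw with hw | hw
    · exact Or.inr (hw.symm.trans h.1)
    · exact Or.inl (hw.symm.trans h.2)

private theorem RED_ne {G : Gr α β} (hG : G.Ok) {e : β} (he : e ∈ G.E) {u v : α}
    (h : G.J e u v) : u ≠ v := by
  intro huv
  subst huv
  rcases h with h | h
  · exact hG.ne e he (h.1.trans h.2.symm)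
  · exact hG.ne e he (h.1.trans h.2.symm)

private theorem RED_mem {G : Gr α β} (hG : G.Ok) {e : β} (he : e ∈ G.E) {u v : α}
    (h : G.J e u v) : u ∈ G.V := by
  rcases h with h | h
  · rw [← h.1]; exact hG.hV e he
  · rw [← h.2]; exact hG.tV e he

private theorem RED_other {G : Gr α β} {e : β} {u : α} (h : G.h e = u ∨ G.t e = u) :
    ∃ v, G.J e u v := by
  rcases h with h | h
  · exact ⟨G.t e, Or.inl ⟨h, rfl⟩⟩
  · exact ⟨G.h e, Or.inr ⟨rfl, h⟩⟩

/-- the three edges at a vertex -/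
private theorem RED_three {G : Gr α β} (hG : G.Ok) {F : Finset β} (hF : F ⊆ G.E) {v : α}
    (hv : v ∈ G.V) {e0 : β} (he0 : e0 ∈ G.E) (hi : G.h e0 = v ∨ G.t e0 = v) :
    ∃ p q, p ∈ G.E ∧ q ∈ G.E ∧ p ≠ q ∧ e0 ≠ p ∧ e0 ≠ q ∧ (G.h p = v ∨ G.t p = v) ∧
      (G.h q = v ∨ G.t q = v) ∧
      (∀ e ∈ G.E, (G.h e = v ∨ G.t e = v) → e = e0 ∨ e = p ∨ e = q) ∧
      G.deg F v = (if e0 ∈ F then 1 else 0) + ((if p ∈ F then 1 else 0) +
        (if q ∈ F then 1 else 0)) := by
  have h3 := hG.cub v hv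
  unfold Gr.deg at h3
  set I := G.E.filter (fun e => G.h e = v ∨ G.t e = v) with hI
  have he0I : e0 ∈ I := by rw [hI, Finset.mem_filter]; exact ⟨he0, hi⟩
  have h2 : (I.erase e0).card = 2 := by rw [Finset.card_erase_of_mem he0I, h3]
  obtain ⟨p, q, hpq, hpqI⟩ := Finset.card_eq_two.1 h2
  have hp : p ∈ I.erase e0 := by rw [hpqI]; simp
  have hq : q ∈ I.erase e0 := by rw [hpqI]; simp
  rw [Finset.mem_erase, hI, Finset.mem_filter] at hp hq
  have hcov : ∀ e ∈ G.E, (G.h e = v ∨ G.t e = v) → e = e0 ∨ e = p ∨ e = q := by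
    intro e he hev
    by_cases h : e = e0
    · exact Or.inl h
    · right
      have h4 : e ∈ I.erase e0 := by
        rw [Finset.mem_erase, hI, Finset.mem_filter]
        exact ⟨h, he, hev⟩
      rw [hpqI, Finset.mem_insert, Finset.mem_singleton] at h4
      exact h4
  refine ⟨p, q, hp.2.1, hq.2.1, hpq, Ne.symm hp.1, Ne.symm hq.1, hp.2.2, hq.2.2, hcov, ?_⟩
  unfold Gr.deg
  have h5 : F.filter (fun e => G.h e = v ∨ G.t e = v) =
      ({e0, p, q} : Finset β).filter (fun e => e ∈ F) := by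
    ext e
    simp only [Finset.mem_filter, Finset.mem_insert, Finset.mem_singleton]
    constructor
    · rintro ⟨h6, h7⟩
      exact ⟨hcov e (hF h6) h7, h6⟩
    · rintro ⟨h6, h7⟩
      refine ⟨h7, ?_⟩
      rcases h6 with rfl | rfl | rfl
      · exact hi
      · exact hp.2.2
      · exact hq.2.2
  rw [h5, Finset.card_filter, Finset.sum_insert, Finset.sum_insert, Finset.sum_singleton]
  · simpa using hpq
  · simp only [Finset.mem_insert, Finset.mem_singleton, not_or]
    exact ⟨Ne.symm hp.1, Ne.symm hq.1⟩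

theorem choice2 (G : Gr α β) (hG : G.Ok)
    (dig : ∀ e ∈ G.E, ∀ f ∈ G.E, ∀ u v, G.J e u v → G.J f u v → e = f)
    (tri : ∀ e ∈ G.E, ∀ f ∈ G.E, ∀ g ∈ G.E, ∀ u v w, G.J e u v → G.J f v w → G.J g w u → False)
    (F : Finset β) (hF : G.Join F) (a x : α) (ea : β) (hea : ea ∈ G.E) (hJ : G.J ea a x)
    (hx : G.deg F x = 1) :
    ∃ y b x' b' em ex eb eb', G.Red F a x y b x' b' ea em ex eb eb' := by
  have hxV : x ∈ G.V := RED_mem hG hea (RED_symm hJ)
  -- the edges at `x`
  obtain ⟨em, ex, hem, hex, hmx, ham, hax, him, hix, hcx, hmF, hone⟩ :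
      ∃ em ex, em ∈ G.E ∧ ex ∈ G.E ∧ em ≠ ex ∧ ea ≠ em ∧ ea ≠ ex ∧ (G.h em = x ∨ G.t em = x) ∧
      (G.h ex = x ∨ G.t ex = x) ∧
      (∀ e ∈ G.E, (G.h e = x ∨ G.t e = x) → e = ea ∨ e = em ∨ e = ex) ∧ em ∉ F ∧
      (ea ∈ F ↔ ex ∉ F) := by
    obtain ⟨p, q, hp, hq, hpq, h0p, h0q, hip, hiq, hc, hd⟩ :=
      RED_three hG hF.1 hxV hea (RED_inc (RED_symm hJ))
    rw [hx] at hd
    by_cases ha : ea ∈ F
    · have h1 : p ∉ F := by
        intro h
        rw [if_pos ha, if_pos h] at hd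
        omega
      have h2 : q ∉ F := by
        intro h
        rw [if_pos ha, if_pos h] at hd
        omega
      exact ⟨p, q, hp, hq, hpq, h0p, h0q, hip, hiq, hc, h1, ⟨fun _ => h2, fun _ => ha⟩⟩
    · by_cases h1 : p ∈ F
      · have h2 : q ∉ F := by
          intro h
          rw [if_pos h1, if_pos h] at hd
          omega
        exact ⟨q, p, hq, hp, hpq.symm, h0q, h0p, hiq, hip,
          fun e he hi => (hc e he hi).imp_right Or.symm, h2,
          ⟨fun h => absurd h ha, fun h => absurd h1 h⟩⟩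
      · have h2 : q ∈ F := by
          by_contra h
          rw [if_neg ha, if_neg h1, if_neg h] at hd
          omega
        exact ⟨p, q, hp, hq, hpq, h0p, h0q, hip, hiq, hc, h1,
          ⟨fun h => absurd h ha, fun h => absurd h2 h⟩⟩
  obtain ⟨y, hJm⟩ := RED_other him
  have hyV : y ∈ G.V := RED_mem hG hem (RED_symm hJm)
  -- the edges at `y`
  obtain ⟨eb, eb', heb, heb', hbb, hmb, hmb', hib, hib', hcy, habF, hxbF⟩ :
      ∃ eb eb', eb ∈ G.E ∧ eb' ∈ G.E ∧ eb ≠ eb' ∧ em ≠ eb ∧ em ≠ eb' ∧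
      (G.h eb = y ∨ G.t eb = y) ∧ (G.h eb' = y ∨ G.t eb' = y) ∧
      (∀ e ∈ G.E, (G.h e = y ∨ G.t e = y) → e = em ∨ e = eb ∨ e = eb') ∧
      (ea ∈ F ↔ eb ∈ F) ∧ (ex ∈ F ↔ eb' ∈ F) := by
    obtain ⟨p, q, hp, hq, hpq, h0p, h0q, hip, hiq, hc, hd⟩ :=
      RED_three hG hF.1 hyV hem (RED_inc (RED_symm hJm))
    have hodd := hF.2 y hyV
    rw [hd, if_neg hmF, zero_add] at hodd
    have hpqF : (p ∈ F ∧ q ∉ F) ∨ (p ∉ F ∧ q ∈ F) := by
      by_cases h1 : p ∈ F <;> by_cases h2 : q ∈ F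
      · rw [if_pos h1, if_pos h2] at hodd
        exact absurd hodd (by decide)
      · exact Or.inl ⟨h1, h2⟩
      · exact Or.inr ⟨h1, h2⟩
      · rw [if_neg h1, if_neg h2] at hodd
        exact absurd hodd (by decide)
    have hc' : ∀ e ∈ G.E, (G.h e = y ∨ G.t e = y) → e = em ∨ e = q ∨ e = p :=
      fun e he hi => (hc e he hi).imp_right Or.symm
    by_cases ha : ea ∈ F
    · rcases hpqF with ⟨h1, h2⟩ | ⟨h1, h2⟩
      · exact ⟨p, q, hp, hq, hpq, h0p, h0q, hip, hiq, hc, ⟨fun _ => h1, fun _ => ha⟩,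
          ⟨fun h => absurd h (hone.1 ha), fun h => absurd h h2⟩⟩
      · exact ⟨q, p, hq, hp, hpq.symm, h0q, h0p, hiq, hip, hc', ⟨fun _ => h2, fun _ => ha⟩,
          ⟨fun h => absurd h (hone.1 ha), fun h => absurd h h1⟩⟩
    · have hexF : ex ∈ F := by
        by_contra h
        exact ha (hone.2 h)
      rcases hpqF with ⟨h1, h2⟩ | ⟨h1, h2⟩
      · exact ⟨q, p, hq, hp, hpq.symm, h0q, h0p, hiq, hip, hc',
          ⟨fun h => absurd h ha, fun h => absurd h h2⟩, ⟨fun _ => h1, fun _ => hexF⟩⟩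
      · exact ⟨p, q, hp, hq, hpq, h0p, h0q, hip, hiq, hc,
          ⟨fun h => absurd h ha, fun h => absurd h h1⟩, ⟨fun _ => h2, fun _ => hexF⟩⟩
  obtain ⟨b, hJb⟩ := RED_other hib
  obtain ⟨b', hJb'⟩ := RED_other hib'
  obtain ⟨x', hJx⟩ := RED_other hix
  -- the vertices are different
  have n1 : a ≠ x := RED_ne hG hea hJ
  have n2 : a ≠ y := by
    intro h
    subst h
    exact ham (dig ea hea em hem _ _ hJ (RED_symm hJm))
  have n3 : a ≠ b := by
    intro h
    subst h
    exact tri ea hea em hem eb heb _ _ _ hJ hJm hJb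
  have n4 : a ≠ x' := by
    intro h
    subst h
    exact hax (dig ea hea ex hex _ _ hJ (RED_symm hJx))
  have n5 : a ≠ b' := by
    intro h
    subst h
    exact tri ea hea em hem eb' heb' _ _ _ hJ hJm hJb'
  have n6 : x ≠ y := RED_ne hG hem hJm
  have n7 : x ≠ b := by
    intro h
    subst h
    exact hmb (dig em hem eb heb _ _ hJm (RED_symm hJb))
  have n8 : x ≠ x' := RED_ne hG hex hJx
  have n9 : x ≠ b' := by
    intro h
    subst h
    exact hmb' (dig em hem eb' heb' _ _ hJm (RED_symm hJb'))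
  have n10 : y ≠ b := RED_ne hG heb hJb
  have n11 : y ≠ x' := by
    intro h
    subst h
    exact hmx (dig em hem ex hex _ _ hJm hJx)
  have n12 : y ≠ b' := RED_ne hG heb' hJb'
  have n13 : b ≠ x' := by
    intro h
    subst h
    exact tri em hem eb heb ex hex _ _ _ hJm hJb (RED_symm hJx)
  have n14 : b ≠ b' := by
    intro h
    subst h
    exact hbb (dig eb heb eb' heb' _ _ hJb hJb')
  have n15 : x' ≠ b' := by
    intro h
    subst h
    exact tri em hem eb' heb' ex hex _ _ _ hJm hJb' (RED_symm hJx)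
  have m1 : ea ≠ eb := by
    intro h
    subst h
    rcases RED_two hJ hib with h | h
    · exact n2 h.symm
    · exact n6 h.symm
  have m2 : ea ≠ eb' := by
    intro h
    subst h
    rcases RED_two hJ hib' with h | h
    · exact n2 h.symm
    · exact n6 h.symm
  have m3 : ex ≠ eb := by
    intro h
    subst h
    rcases RED_two hJx hib with h | h
    · exact n6 h.symm
    · exact n11 h
  have m4 : ex ≠ eb' := by
    intro h
    subst h
    rcases RED_two hJx hib' with h | h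
    · exact n6 h.symm
    · exact n11 h
  refine ⟨y, b, x', b', em, ex, eb, eb', ?_⟩
  exact
    { Ja := hJ
      Jm := hJm
      Jx := hJx
      Jb := hJb
      Jb' := hJb'
      va := RED_mem hG hea hJ
      vx := hxV
      vy := hyV
      vb := RED_mem hG heb (RED_symm hJb)
      vx' := RED_mem hG hex (RED_symm hJx)
      vb' := RED_mem hG heb' (RED_symm hJb')
      Ea := hea
      Em := hem
      Ex := hex
      Eb := heb
      Eb' := heb'
      vnd := by
        simp only [List.nodup_cons, List.mem_cons, List.not_mem_nil, or_false, not_or,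
          List.nodup_nil, and_true, not_false_eq_true]
        exact ⟨⟨n1, n2, n3, n4, n5⟩, ⟨n6, n7, n8, n9⟩, ⟨n10, n11, n12⟩, ⟨n13, n14⟩, n15⟩
      end_ := by
        simp only [List.nodup_cons, List.mem_cons, List.not_mem_nil, or_false, not_or,
          List.nodup_nil, and_true, not_false_eq_true]
        exact ⟨⟨ham, hax, m1, m2⟩, ⟨hmx, hmb, hmb'⟩, ⟨m3, m4⟩, hbb⟩
      incx := hcx
      incy := hcy
      mF := hmF
      abF := habF
      xbF := hxbF
      one := hone }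

end Helper432.F5
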