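import Pool.Agent.H432R2.F5.Defs

namespace Helper432.F5

open Finset

variable {α β : Type} [DecidableEq α] [DecidableEq β]

theorem ROK_other (G : Gr α β) (F : Finset β) (a x y b x' b' : α)
    (ea em ex eb eb' : β) (hR : G.Red F a x y b x' b' ea em ex eb eb')
    (e : β) (he : e ∈ G.E) (h1 : e ≠ ea) (h2 : e ≠ em) (h3 : e ≠ ex) (h4 : e ≠ eb) (h5 : e ≠ eb') :
    G.h e ≠ x ∧ G.h e ≠ y ∧ G.t e ≠ x ∧ G.t e ≠ y := by
  refine ⟨?_, ?_, ?_, ?_⟩
  · intro h
    rcases hR.incx e he (Or.inl h) with h | h | h
    · exact h1 h
    · exact h2 h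
    · exact h3 h
  · intro h
    rcases hR.incy e he (Or.inl h) with h | h | h
    · exact h2 h
    · exact h4 h
    · exact h5 h
  · intro h
    rcases hR.incx e he (Or.inr h) with h | h | h
    · exact h1 h
    · exact h2 h
    · exact h3 h
  · intro h
    rcases hR.incy e he (Or.inr h) with h | h | h
    · exact h2 h
    · exact h4 h
    · exact h5 h

theorem red_ok (G : Gr α β) (hG : G.Ok) (h6 : 6 ≤ G.V.card)
    (c4 : ∀ X ⊆ G.V, 2 ≤ X.card → 2 ≤ (G.V \ X).card → 4 ≤ (G.cut X).card)
    (F : Finset β) (a x y b x' b' : α)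
    (ea em ex eb eb' : β) (hR : G.Red F a x y b x' b' ea em ex eb eb')
    (hdeg : ∀ A ⊆ G.E, (ea ∈ A ↔ eb ∈ A) → (ex ∈ A ↔ eb' ∈ A) → ∀ v ∈ G.V, v ≠ x → v ≠ y →
      (G.red a x y b x' b' ea em ex eb eb').deg (A \ {em, eb, eb'}) v = G.deg A v)
    (hcut : ∀ X ⊆ G.V \ {x, y},
      (G.cut X).card = ((G.red a x y b x' b' ea em ex eb eb').cut X).card
        + 2 * (if a ∈ X ∧ b ∈ X then 1 else 0) + 2 * (if x' ∈ X ∧ b' ∈ X then 1 else 0) ∧
      (G.cut (X ∪ {x, y})).card = ((G.red a x y b x' b' ea em ex eb eb').cut X).card
        + 2 * (if a ∉ X ∧ b ∉ X then 1 else 0) + 2 * (if x' ∉ X ∧ b' ∉ X then 1 else 0)) :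
    (G.red a x y b x' b' ea em ex eb eb').Ok := by
  have hnd := hR.vnd
  have hed := hR.end_
  simp only [List.nodup_cons, List.mem_cons, List.not_mem_nil, or_false, not_or, not_false_eq_true,
    List.nodup_nil, and_true, List.mem_singleton] at hnd hed
  obtain ⟨⟨nax, nay, nab, nax', nab'⟩, ⟨nxy, nxb, nxx', nxb'⟩, ⟨nyb, nyx', nyb'⟩, ⟨nbx', nbb'⟩, nx'b'⟩ := hnd
  obtain ⟨⟨eam, eax, eab, eab'⟩, ⟨emx, emb, emb'⟩, ⟨exb, exb'⟩, ebb'⟩ := hed
  have hE : ∀ e ∈ (G.red a x y b x' b' ea em ex eb eb').E, e ∈ G.E ∧ e ≠ em ∧ e ≠ eb ∧ e ≠ eb' := by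
    intro e he
    simpa [Gr.red] using he
  have hother : ∀ e ∈ (G.red a x y b x' b' ea em ex eb eb').E, e ≠ ea → e ≠ ex →
      G.h e ≠ x ∧ G.h e ≠ y ∧ G.t e ≠ x ∧ G.t e ≠ y := by
    intro e he h1 h2
    obtain ⟨h3, h4, h5, h6⟩ := hE e he
    exact ROK_other G F a x y b x' b' ea em ex eb eb' hR e h3 h1 h4 h2 h5 h6
  refine ⟨?_, ?_, ?_, ?_, ?_⟩
  · intro e he
    have hVd : (G.red a x y b x' b' ea em ex eb eb').V = G.V \ {x, y} := rfl
    have hhd : (G.red a x y b x' b' ea em ex eb eb').h e
      = Function.update (Function.update G.h ea a) ex x' e := rfl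
    rw [hVd, hhd]
    by_cases h1 : e = ex
    · rw [h1, Function.update_self]
      simp [hR.vx', Ne.symm nxx', Ne.symm nyx']
    · rw [Function.update_of_ne h1]
      by_cases h2 : e = ea
      · rw [h2, Function.update_self]
        simp [hR.va, nax, nay]
      · rw [Function.update_of_ne h2]
        have := hother e he h2 h1
        simp [hG.hV e (hE e he).1, this.1, this.2.1]
  · intro e he
    have hVd : (G.red a x y b x' b' ea em ex eb eb').V = G.V \ {x, y} := rfl
    have hhd : (G.red a x y b x' b' ea em ex eb eb').t e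
      = Function.update (Function.update G.t ea b) ex b' e := rfl
    rw [hVd, hhd]
    by_cases h1 : e = ex
    · rw [h1, Function.update_self]
      simp [hR.vb', Ne.symm nxb', Ne.symm nyb']
    · rw [Function.update_of_ne h1]
      by_cases h2 : e = ea
      · rw [h2, Function.update_self]
        simp [hR.vb, Ne.symm nxb, Ne.symm nyb]
      · rw [Function.update_of_ne h2]
        have := hother e he h2 h1
        simp [hG.tV e (hE e he).1, this.2.2.1, this.2.2.2]
  · intro e he
    have hhd : (G.red a x y b x' b' ea em ex eb eb').h e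
      = Function.update (Function.update G.h ea a) ex x' e := rfl
    have htd : (G.red a x y b x' b' ea em ex eb eb').t e
      = Function.update (Function.update G.t ea b) ex b' e := rfl
    rw [hhd, htd]
    by_cases h1 : e = ex
    · rw [h1, Function.update_self, Function.update_self]
      exact nx'b'
    · rw [Function.update_of_ne h1, Function.update_of_ne h1]
      by_cases h2 : e = ea
      · rw [h2, Function.update_self, Function.update_self]
        exact nab
      · rw [Function.update_of_ne h2, Function.update_of_ne h2]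
        exact hG.ne e (hE e he).1
  · intro v hv
    have hv' : v ∈ G.V ∧ v ≠ x ∧ v ≠ y := by simpa [Gr.red] using hv
    have h := hdeg G.E (Finset.Subset.refl _) (by simp [hR.Ea, hR.Eb]) (by simp [hR.Ex, hR.Eb'])
      v hv'.1 hv'.2.1 hv'.2.2
    rw [hG.cub v hv'.1] at h
    exact h
  · intro X hX hcard
    have hX' : X ⊆ G.V \ {x, y} := hX
    have hXV : X ⊆ G.V := hX'.trans Finset.sdiff_subset
    obtain ⟨c1, c2⟩ := hcut X hX'
    rw [hcard] at c1 c2
    have hxX : x ∉ X := fun h => by have := hX' h; simp at this
    have hyX : y ∉ X := fun h => by have := hX' h; simp at this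
    have hb1 := hG.br X hXV
    have hU : X ∪ {x, y} ⊆ G.V := by
      intro z hz
      simp only [Finset.mem_union, Finset.mem_insert, Finset.mem_singleton] at hz
      rcases hz with hz | hz | hz
      · exact hXV hz
      · rw [hz]; exact hR.vx
      · rw [hz]; exact hR.vy
    have hb2 := hG.br (X ∪ {x, y}) hU
    by_cases hab : a ∈ X ∧ b ∈ X
    · by_cases hxb : x' ∈ X ∧ b' ∈ X
      · -- contradiction from c2
        have n1 : ¬ (a ∉ X ∧ b ∉ X) := fun h => h.1 hab.1
        have n2 : ¬ (x' ∉ X ∧ b' ∉ X) := fun h => h.1 hxb.1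
        rw [if_neg n1, if_neg n2] at c2
        omega
      · by_cases hxb2 : x' ∉ X ∧ b' ∉ X
        · rw [if_pos hab, if_neg hxb] at c1
          have h2 : 2 ≤ X.card := by
            have : ({a, b} : Finset α) ⊆ X := by
              intro z hz
              simp only [Finset.mem_insert, Finset.mem_singleton] at hz
              rcases hz with hz | hz
              · rw [hz]; exact hab.1
              · rw [hz]; exact hab.2
            have hc := Finset.card_le_card this
            rw [Finset.card_pair nab] at hc
            exact hc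
          have h3 : 2 ≤ (G.V \ X).card := by
            have : ({x, y} : Finset α) ⊆ G.V \ X := by
              intro z hz
              simp only [Finset.mem_insert, Finset.mem_singleton] at hz
              rw [Finset.mem_sdiff]
              rcases hz with hz | hz
              · rw [hz]; exact ⟨hR.vx, hxX⟩
              · rw [hz]; exact ⟨hR.vy, hyX⟩
            have hc := Finset.card_le_card this
            rw [Finset.card_pair nxy] at hc
            exact hc
          have := c4 X hXV h2 h3
          omega
        · have n1 : ¬ (a ∉ X ∧ b ∉ X) := fun h => h.1 hab.1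
          rw [if_neg n1, if_neg hxb2] at c2
          omega
    · by_cases hxb : x' ∈ X ∧ b' ∈ X
      · by_cases hab2 : a ∉ X ∧ b ∉ X
        · rw [if_neg hab, if_pos hxb] at c1
          have h2 : 2 ≤ X.card := by
            have : ({x', b'} : Finset α) ⊆ X := by
              intro z hz
              simp only [Finset.mem_insert, Finset.mem_singleton] at hz
              rcases hz with hz | hz
              · rw [hz]; exact hxb.1
              · rw [hz]; exact hxb.2
            have hc := Finset.card_le_card this
            rw [Finset.card_pair nx'b'] at hc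
            exact hc
          have h3 : 2 ≤ (G.V \ X).card := by
            have : ({x, y} : Finset α) ⊆ G.V \ X := by
              intro z hz
              simp only [Finset.mem_insert, Finset.mem_singleton] at hz
              rw [Finset.mem_sdiff]
              rcases hz with hz | hz
              · rw [hz]; exact ⟨hR.vx, hxX⟩
              · rw [hz]; exact ⟨hR.vy, hyX⟩
            have hc := Finset.card_le_card this
            rw [Finset.card_pair nxy] at hc
            exact hc
          have := c4 X hXV h2 h3
          omega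
        · have n1 : ¬ (x' ∉ X ∧ b' ∉ X) := fun h => h.1 hxb.1
          rw [if_neg hab2, if_neg n1] at c2
          omega
      · rw [if_neg hab, if_neg hxb] at c1
        omega

end Helper432.F5
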