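import Pool.Agent.H432R2.F5.Defs

namespace Helper432.F5

open Finset

variable {α β : Type} [DecidableEq α] [DecidableEq β]

theorem tjn_card_symmDiff (S T : Finset β) : (symmDiff S T).card % 2 = (S.card + T.card) % 2 := by
  have h1 : (symmDiff S T).card = (S \ T).card + (T \ S).card := by
    rw [← Finset.card_union_of_disjoint]
    · rfl
    · rw [Finset.disjoint_left]
      intro x hx hx'
      exact (Finset.mem_sdiff.1 hx').2 (Finset.mem_sdiff.1 hx).1
  have h2 := Finset.card_sdiff_add_card_inter S T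
  have h3 := Finset.card_sdiff_add_card_inter T S
  rw [Finset.inter_comm] at h3
  omega

theorem tjn_deg (G : Gr α β) (A B : Finset β) (v : α) :
    G.deg (symmDiff A B) v % 2 = (G.deg A v + G.deg B v) % 2 := by
  unfold Gr.deg
  rw [← tjn_card_symmDiff]
  congr 2
  ext e
  simp only [Finset.mem_filter, Finset.mem_symmDiff]
  tauto

theorem tjn_deg_single (G : Gr α β) (e : β) (he : G.h e ≠ G.t e) (v : α) :
    G.deg {e} v = (if v = G.h e then 1 else 0) + (if v = G.t e then 1 else 0) := by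
  unfold Gr.deg
  rw [Finset.filter_singleton]
  by_cases h1 : v = G.h e
  · subst h1
    simp [he]
  · by_cases h2 : v = G.t e
    · subst h2
      simp [h1]
    · simp [h1, h2, Ne.symm h1, Ne.symm h2]

/-- there is a path -/
def TjnP (G : Gr α β) (R : Finset β) (a w : α) : Prop :=
  ∃ P ⊆ G.E \ R, ∀ v ∈ G.V,
    (G.deg P v + (if v = a then 1 else 0) + (if v = w then 1 else 0)) % 2 = 0

theorem TjnP.step {G : Gr α β} {R : Finset β} {a w w' : α} (h : TjnP G R a w) {e : β}
    (he : e ∈ G.E \ R) (hne : G.h e ≠ G.t e)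
    (hw : (G.h e = w ∧ G.t e = w') ∨ (G.h e = w' ∧ G.t e = w)) : TjnP G R a w' := by
  obtain ⟨P, hP, hv⟩ := h
  refine ⟨symmDiff P {e}, ?_, fun v hvV => ?_⟩
  · intro x hx
    rw [Finset.mem_symmDiff, Finset.mem_singleton] at hx
    rcases hx with ⟨hx, _⟩ | ⟨rfl, _⟩
    · exact hP hx
    · exact he
  · have h1 := tjn_deg G P {e} v
    have h2 := tjn_deg_single G e hne v
    have h3 := hv v hvV
    rcases hw with ⟨rfl, rfl⟩ | ⟨rfl, rfl⟩ <;> omega

theorem tjoin (G : Gr α β) (hG : G.Ok) (R : Finset β)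
    (hR : ∀ X ⊆ G.V, G.cut X ⊆ R → Even X.card) : ∃ J ⊆ G.E \ R, G.Join J := by
  classical
  obtain ⟨J, hJ, hmin⟩ := Finset.exists_min_image (G.E \ R).powerset
    (fun J => (G.V.filter fun v => Even (G.deg J v)).card) ⟨∅, Finset.empty_mem_powerset _⟩
  rw [Finset.mem_powerset] at hJ
  refine ⟨J, hJ, hJ.trans Finset.sdiff_subset, fun a ha => ?_⟩
  by_contra hodd
  rw [Nat.not_odd_iff_even] at hodd
  set X : Finset α := G.V.filter fun w => TjnP G R a w with hX
  have hXV : X ⊆ G.V := Finset.filter_subset _ _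
  have haX : a ∈ X := by
    rw [hX, Finset.mem_filter]
    refine ⟨ha, ∅, Finset.empty_subset _, fun v _ => ?_⟩
    have : G.deg ∅ v = 0 := by unfold Gr.deg; simp
    rw [this]
    split_ifs <;> rfl
  have hcut : G.cut X ⊆ R := by
    intro e he
    by_contra heR
    unfold Gr.cut at he
    rw [Finset.mem_filter] at he
    obtain ⟨heE, he⟩ := he
    have he' : e ∈ G.E \ R := Finset.mem_sdiff.2 ⟨heE, heR⟩
    rcases he with ⟨h1, h2⟩ | ⟨h1, h2⟩
    · apply h2
      rw [hX, Finset.mem_filter] at h1 ⊢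
      exact ⟨hG.tV e heE, h1.2.step he' (hG.ne e heE) (Or.inl ⟨rfl, rfl⟩)⟩
    · apply h1
      rw [hX, Finset.mem_filter] at h2 ⊢
      exact ⟨hG.hV e heE, h2.2.step he' (hG.ne e heE) (Or.inr ⟨rfl, rfl⟩)⟩
  have hXe := hR X hXV hcut
  have hhs := G.handshake hG.ne J (hJ.trans Finset.sdiff_subset) X
  have hJc : J ∩ G.cut X = ∅ := by
    rw [← Finset.disjoint_iff_inter_eq_empty, Finset.disjoint_left]
    intro e he he'
    exact (Finset.mem_sdiff.1 (hJ he)).2 (hcut he')
  rw [hJc, Finset.card_empty, zero_add] at hhs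
  have hcnt : (X.filter fun v => Even (G.deg J v)).card % 2 = 0 := by
    have h1 : (X.filter fun v => Even (G.deg J v)).card =
        ∑ v ∈ X, if Even (G.deg J v) then 1 else 0 := Finset.card_filter _ _
    have h2 : (∑ v ∈ X, if Even (G.deg J v) then 1 else 0) % 2 =
        (∑ v ∈ X, (G.deg J v + 1)) % 2 := by
      rw [Finset.sum_nat_mod, Finset.sum_nat_mod X 2 fun v => G.deg J v + 1]
      congr 1
      refine Finset.sum_congr rfl fun v _ => ?_
      rcases Nat.even_or_odd (G.deg J v) with h | h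
      · rw [if_pos h]
        have := Nat.even_iff.1 h
        omega
      · rw [if_neg (Nat.not_even_iff_odd.2 h)]
        have := Nat.odd_iff.1 h
        omega
    rw [h1, h2, Finset.sum_add_distrib, hhs, Finset.sum_const, smul_eq_mul, mul_one]
    have := Nat.even_iff.1 hXe
    omega
  have haF : a ∈ X.filter fun v => Even (G.deg J v) := Finset.mem_filter.2 ⟨haX, hodd⟩
  have hpos : 0 < (X.filter fun v => Even (G.deg J v)).card := Finset.card_pos.2 ⟨a, haF⟩
  obtain ⟨u, hu, hua⟩ := Finset.exists_mem_ne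
    (show 1 < (X.filter fun v => Even (G.deg J v)).card by omega) a
  rw [Finset.mem_filter] at hu
  obtain ⟨huX, hue⟩ := hu
  rw [hX, Finset.mem_filter] at huX
  obtain ⟨huV, P, hP, hv⟩ := huX
  have hJ' : symmDiff J P ∈ (G.E \ R).powerset := by
    rw [Finset.mem_powerset]
    intro x hx
    rw [Finset.mem_symmDiff] at hx
    rcases hx with ⟨hx, _⟩ | ⟨hx, _⟩
    · exact hJ hx
    · exact hP hx
  have hle := hmin _ hJ'
  refine absurd hle (not_le.2 (Finset.card_lt_card ?_))
  rw [Finset.ssubset_iff_of_subset]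
  · refine ⟨a, Finset.mem_filter.2 ⟨ha, hodd⟩, fun h => ?_⟩
    rw [Finset.mem_filter] at h
    have h1 := Nat.even_iff.1 h.2
    have h2 := tjn_deg G J P a
    have h3 := hv a ha
    rw [if_pos rfl, if_neg (Ne.symm hua)] at h3
    have h4 := Nat.even_iff.1 hodd
    omega
  · intro v hvm
    rw [Finset.mem_filter] at hvm ⊢
    refine ⟨hvm.1, ?_⟩
    have h1 := Nat.even_iff.1 hvm.2
    have h2 := tjn_deg G J P v
    have h3 := hv v hvm.1
    rw [Nat.even_iff]
    by_cases hva : v = a
    · subst hva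
      exact Nat.even_iff.1 hodd
    · by_cases hvu : v = u
      · subst hvu
        exact Nat.even_iff.1 hue
      · rw [if_neg hva, if_neg hvu] at h3
        omega

end Helper432.F5
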