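import Pool.Agent.H432R2.F5.Defs

namespace Helper432.F5

open Finset

variable {α β : Type} [DecidableEq α] [DecidableEq β]

theorem TRI_mem {G : Gr α β} (hG : G.Ok) {e : β} (he : e ∈ G.E) {u v : α} (h : G.J e u v) :
    u ≠ v ∧ u ∈ G.V ∧ v ∈ G.V := by
  have h1 := hG.ne e he
  have h2 := hG.hV e he
  have h3 := hG.tV e he
  rcases h with ⟨rfl, rfl⟩ | ⟨rfl, rfl⟩
  · exact ⟨h1, h2, h3⟩
  · exact ⟨h1.symm, h3, h2⟩

theorem TRI_inn {G : Gr α β} {e : β} (he : e ∈ G.E) {u v : α} (h : G.J e u v)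
    {X : Finset α} (hu : u ∈ X) (hv : v ∈ X) : e ∈ G.inn G.E X := by
  unfold Gr.inn
  rw [mem_filter]
  rcases h with ⟨h1, h2⟩ | ⟨h1, h2⟩
  · rw [h1, h2]; exact ⟨he, hu, hv⟩
  · rw [h1, h2]; exact ⟨he, hv, hu⟩

theorem no_tri (G : Gr α β) (hG : G.Ok) (h6 : 6 ≤ G.V.card)
    (c4 : ∀ X ⊆ G.V, 2 ≤ X.card → 2 ≤ (G.V \ X).card → 4 ≤ (G.cut X).card)
    (e f g : β) (he : e ∈ G.E) (hf : f ∈ G.E) (hg : g ∈ G.E) (u v w : α)
    (h1 : G.J e u v) (h2 : G.J f v w) (h3 : G.J g w u) : False := by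
  obtain ⟨huv, hu, hv⟩ := TRI_mem hG he h1
  obtain ⟨hvw, -, hw⟩ := TRI_mem hG hf h2
  obtain ⟨hwu, -, -⟩ := TRI_mem hG hg h3
  have hef : e ≠ f := by
    rintro rfl
    rcases h1 with ⟨a, b⟩ | ⟨a, b⟩ <;> rcases h2 with ⟨c, d⟩ | ⟨c, d⟩
    · exact huv (a.symm.trans c)
    · exact hwu (c.symm.trans a)
    · exact hwu (d.symm.trans b)
    · exact huv (b.symm.trans d)
  have hfg : f ≠ g := by
    rintro rfl
    rcases h2 with ⟨a, b⟩ | ⟨a, b⟩ <;> rcases h3 with ⟨c, d⟩ | ⟨c, d⟩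
    · exact hvw (a.symm.trans c)
    · exact huv (c.symm.trans a)
    · exact huv (d.symm.trans b)
    · exact hvw (b.symm.trans d)
  have heg : g ≠ e := by
    rintro rfl
    rcases h3 with ⟨a, b⟩ | ⟨a, b⟩ <;> rcases h1 with ⟨c, d⟩ | ⟨c, d⟩
    · exact hwu (a.symm.trans c)
    · exact hvw (c.symm.trans a)
    · exact hvw (d.symm.trans b)
    · exact hwu (b.symm.trans d)
  have hX3 : ({u, v, w} : Finset α).card = 3 := Finset.card_eq_three.mpr
    ⟨u, v, w, huv, hwu.symm, hvw, rfl⟩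
  have hXV : ({u, v, w} : Finset α) ⊆ G.V := by
    intro z hz
    simp only [mem_insert, mem_singleton] at hz
    rcases hz with rfl | rfl | rfl
    · exact hu
    · exact hv
    · exact hw
  have hI : ({e, f, g} : Finset β) ⊆ G.inn G.E {u, v, w} := by
    intro z hz
    simp only [mem_insert, mem_singleton] at hz
    rcases hz with rfl | rfl | rfl
    · exact TRI_inn he h1 (by simp) (by simp)
    · exact TRI_inn hf h2 (by simp) (by simp)
    · exact TRI_inn hg h3 (by simp) (by simp)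
  have hI3 : ({e, f, g} : Finset β).card = 3 := Finset.card_eq_three.mpr
    ⟨e, f, g, hef, heg.symm, hfg, rfl⟩
  have h5 := card_le_card hI
  have h7 := G.card_cut hG _ hXV
  have h8 : (G.V \ {u, v, w}).card = G.V.card - 3 := by
    rw [card_sdiff_of_subset hXV, hX3]
  have h9 := c4 _ hXV (by omega) (by omega)
  omega

end Helper432.F5
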